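import Mathlib

/-!
# The exceptional primes of a squarefree polynomial over the integers
-/

set_option autoImplicit false

namespace Pool.Agent.DPL

open Polynomial

/-- A polynomial over `ℤ` which is squarefree over `ℚ` satisfies a Bezout identity with its
derivative. -/
lemma exists_bezout {g : ℤ[X]} (hg : Squarefree (g.map (Int.castRingHom ℚ))) :
    ∃ (N : ℤ) (a b : ℤ[X]), N ≠ 0 ∧ a * g + b * derivative g = C N := by
  have hsep : (g.map (Int.castRingHom ℚ)).Separable := PerfectField.separable_iff_squarefree.2 hg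
  obtain ⟨a, b, hab⟩ := hsep
  obtain ⟨x, hx0, hx⟩ := IsLocalization.integerNormalization_spec (nonZeroDivisors ℤ) a
  obtain ⟨y, hy0, hy⟩ := IsLocalization.integerNormalization_spec (nonZeroDivisors ℤ) b
  set A := IsLocalization.integerNormalization (nonZeroDivisors ℤ) a with hA
  set B := IsLocalization.integerNormalization (nonZeroDivisors ℤ) b with hB
  refine ⟨x * y, C y * A, C x * B, ?_, ?_⟩
  · exact mul_ne_zero (nonZeroDivisors.ne_zero hx0) (nonZeroDivisors.ne_zero hy0)
  · apply Polynomial.map_injective (Int.castRingHom ℚ) (RingHom.injective_int _)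
    rw [algebraMap_int_eq] at hx hy
    rw [zsmul_eq_mul] at hx hy
    have h1 : ((x : ℚ[X])) = C (x : ℚ) := by simp
    have h2 : ((y : ℚ[X])) = C (y : ℚ) := by simp
    rw [h1] at hx
    rw [h2] at hy
    rw [Polynomial.map_add, Polynomial.map_mul, Polynomial.map_mul, Polynomial.map_mul,
      Polynomial.map_mul, ← derivative_map, hx, hy, map_C, map_C, map_C, map_mul]
    simp only [eq_intCast, C_mul]
    linear_combination (C (x : ℚ) * C (y : ℚ)) * hab

/-- For all but finitely many primes the reduction of a squarefree polynomial is squarefree of the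
same degree. -/
theorem exists_excep (g : ℤ[X]) (hg : Squarefree (g.map (Int.castRingHom ℚ))) :
    ∃ E : Finset ℕ, ∀ p : ℕ, p.Prime → p ∉ E →
      Squarefree (g.map (Int.castRingHom (ZMod p))) ∧
        (g.map (Int.castRingHom (ZMod p))).natDegree = g.natDegree := by
  obtain ⟨N, a, b, hN, hab⟩ := exists_bezout hg
  have hg0 : g ≠ 0 := by
    rintro rfl
    rw [Polynomial.map_zero] at hg
    exact not_squarefree_zero hg
  refine ⟨(N * g.leadingCoeff).natAbs.primeFactors, fun p hp hpE => ?_⟩
  have : Fact p.Prime := ⟨hp⟩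
  have hne : (N * g.leadingCoeff).natAbs ≠ 0 :=
    Int.natAbs_ne_zero.2 (mul_ne_zero hN (leadingCoeff_ne_zero.2 hg0))
  have hdvd : ¬ (p : ℤ) ∣ N * g.leadingCoeff := by
    intro h
    exact hpE (Nat.mem_primeFactors.2 ⟨hp, Int.natCast_dvd.1 h, hne⟩)
  have hNp : ((N : ℤ) : ZMod p) ≠ 0 := by
    rw [Ne, ZMod.intCast_zmod_eq_zero_iff_dvd]
    exact fun h => hdvd (h.mul_right _)
  have hlp : ((g.leadingCoeff : ℤ) : ZMod p) ≠ 0 := by
    rw [Ne, ZMod.intCast_zmod_eq_zero_iff_dvd]
    exact fun h => hdvd (h.mul_left _)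
  constructor
  · apply Polynomial.Separable.squarefree
    have h1 := congrArg (Polynomial.map (Int.castRingHom (ZMod p))) hab
    rw [Polynomial.map_add, Polynomial.map_mul, Polynomial.map_mul, ← derivative_map, map_C] at h1
    simp only [eq_intCast] at h1
    refine ⟨C ((N : ZMod p)⁻¹) * a.map (Int.castRingHom (ZMod p)),
      C ((N : ZMod p)⁻¹) * b.map (Int.castRingHom (ZMod p)), ?_⟩
    have h2 : C ((N : ZMod p)⁻¹) * C (N : ZMod p) = 1 := by
      rw [← C_mul, inv_mul_cancel₀ hNp, C_1]
    linear_combination (C ((N : ZMod p)⁻¹)) * h1 + h2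
  · apply natDegree_map_of_leadingCoeff_ne_zero
    simpa using hlp

end Pool.Agent.DPL
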