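import Pool.Agent.Helper65.DIL.Density
import Pool.Agent.Helper76.DIL.Sum

/-!
# The average number of homomorphisms of `ℤ[√a₁, …, √aₘ]` to the prime fields
-/

set_option autoImplicit false

namespace Pool.Agent.DPL

open Finset Filter Topology Pool.Agent.Helper29.QT Pool.Agent.Helper76.DIL Pool.Agent.Helper65.DIL

/-- The homomorphisms from `ℤ[√a₁, …, √aₘ]` are the choices of the square roots. -/
noncomputable def homRoots {m : ℕ} (a : Fin m → ℤ) (p : ℕ) :
    (Roots ℤ a →+* ZMod p) ≃ ((i : Fin m) → {s : ZMod p // s ^ 2 = (a i : ZMod p)}) :=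
  (homEquiv a p).trans
    { toFun := fun z i => ⟨z.1.2 i, z.2 i⟩
      invFun := fun w => ⟨(Int.castRingHom (ZMod p), fun i => (w i).1), fun i => (w i).2⟩
      left_inv := fun _ => Subtype.ext (Prod.ext (Subsingleton.elim _ _) rfl)
      right_inv := fun _ => rfl }

lemma finite_hom {m : ℕ} (a : Fin m → ℤ) (p : ℕ) [Fact p.Prime] :
    Finite (Roots ℤ a →+* ZMod p) := Finite.of_equiv _ (homRoots a p).symm

lemma card_hom {m : ℕ} (a : Fin m → ℤ) {p : ℕ} [Fact p.Prime] (hp : p ≠ 2) :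
    (Nat.card (Roots ℤ a →+* ZMod p) : ℝ) = ∏ i, (1 + ch (a i) p) := by
  classical
  have hodd : Odd p := (Fact.out : p.Prime).odd_of_ne_two hp
  have hF : ringChar (ZMod p) ≠ 2 := by rw [ZMod.ringChar_zmod_n]; exact hp
  rw [Nat.card_congr (homRoots a p), Nat.card_pi, Nat.cast_prod]
  refine Finset.prod_congr rfl fun i _ => ?_
  rw [ch_odd _ hodd, ← jacobiSym.legendreSym.to_jacobiSym]
  have h1 := quadraticChar_card_sqrts hF ((a i : ℤ) : ZMod p)
  have h2 : Nat.card {s : ZMod p // s ^ 2 = (a i : ZMod p)} =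
      {x : ZMod p | x ^ 2 = ((a i : ℤ) : ZMod p)}.toFinset.card := by
    rw [Nat.card_eq_fintype_card, Set.toFinset_card]
    rfl
  rw [h2]
  have h3 : legendreSym p (a i) = quadraticChar (ZMod p) (a i : ZMod p) := rfl
  rw [h3]
  have h4 : ((({x : ZMod p | x ^ 2 = ((a i : ℤ) : ZMod p)}.toFinset.card : ℕ) : ℤ) : ℝ) =
      ((quadraticChar (ZMod p) ((a i : ℤ) : ZMod p) + 1 : ℤ) : ℝ) := by rw [h1]
  push_cast at h4
  rw [h4]
  ring

/-- Two functions which agree outside a finite set have the same averages over the primes. -/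
lemma tendsto_of_agree {u v : ℕ → ℝ} (E : Finset ℕ) (h : ∀ p, p.Prime → p ∉ E → u p = v p)
    {l : ℝ} (hv : Tendsto (fun T : ℕ => (∑ p ∈ PR T, v p) / T) atTop (𝓝 l)) :
    Tendsto (fun T : ℕ => (∑ p ∈ PR T, u p) / T) atTop (𝓝 l) := by
  classical
  have h1 : ∀ T : ℕ, |(∑ p ∈ PR T, u p) / T - (∑ p ∈ PR T, v p) / T| ≤
      (∑ p ∈ E, |u p - v p|) / T := by
    intro T
    rw [← sub_div, ← Finset.sum_sub_distrib, abs_div, Nat.abs_cast]
    apply div_le_div_of_nonneg_right _ (Nat.cast_nonneg T)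
    refine (Finset.abs_sum_le_sum_abs _ _).trans ?_
    rw [← Finset.sum_filter_add_sum_filter_not (PR T) (· ∈ E)]
    have h2 : ∑ p ∈ (PR T).filter (fun p => ¬ p ∈ E), |u p - v p| = 0 := by
      refine Finset.sum_eq_zero fun p hp => ?_
      obtain ⟨h3, h4⟩ := Finset.mem_filter.1 hp
      rw [h p (Finset.mem_filter.1 h3).2 h4, sub_self, abs_zero]
    rw [h2, add_zero]
    apply Finset.sum_le_sum_of_subset_of_nonneg
    · intro p hp
      exact (Finset.mem_filter.1 hp).2
    · intro p _ _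
      exact abs_nonneg _
  have h2 : Tendsto (fun T : ℕ => (∑ p ∈ E, |u p - v p|) / (T : ℝ)) atTop (𝓝 0) :=
    tendsto_const_div_atTop_nhds_zero_nat _
  have h3 : Tendsto (fun T : ℕ => (∑ p ∈ PR T, u p) / (T : ℝ) - (∑ p ∈ PR T, v p) / T) atTop
      (𝓝 0) := squeeze_zero_norm (fun T => by rw [Real.norm_eq_abs]; exact h1 T) h2
  have h4 := h3.add hv
  rw [zero_add] at h4
  refine h4.congr fun T => ?_
  ring

/-- The average of the product of the `1 + (a i / p)`. -/
lemma tendsto_prod {m : ℕ} {a : Fin m → ℤ}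
    (h : ∀ S : Finset (Fin m), IsSquare (∏ i ∈ S, a i) → S = ∅) :
    Tendsto (fun T : ℕ => (∑ p ∈ (PR T), (∏ i, (1 + ch (a i) p)) * Real.log p) / T) atTop
      (𝓝 1) := by
  classical
  have h0 : Tendsto (fun T : ℕ => (∑ p ∈ (PR T),
      ∑ S : Finset (Fin m), ch (∏ i ∈ S, a i) p * Real.log p) / T) atTop (𝓝 1) := by
    have h1 : ∀ S : Finset (Fin m), Tendsto (fun T : ℕ =>
        (∑ p ∈ PR T, ch (∏ i ∈ S, a i) p * Real.log p) / T) atTop
        (𝓝 (if S = ∅ then 1 else 0)) := by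
      intro S
      split_ifs with hS
      · subst hS
        rw [Finset.prod_empty]
        refine tendsto_of_agree {2} (fun p hp hp2 => ?_) tendsto_one
        rw [Finset.mem_singleton] at hp2
        rw [ch_odd _ (hp.odd_of_ne_two hp2)]
        simp
      · have hns : ¬ IsSquare (∏ i ∈ S, a i) := fun hs => hS (h S hs)
        exact tendsto_ch (fun h0 => hns (h0 ▸ IsSquare.zero)) hns
    have h2 := tendsto_finsetSum (Finset.univ : Finset (Finset (Fin m))) (fun S _ => h1 S)
    rw [Finset.sum_ite_eq' Finset.univ (∅ : Finset (Fin m)) (fun _ => (1 : ℝ)),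
      if_pos (Finset.mem_univ _)] at h2
    refine h2.congr fun T => ?_
    rw [Finset.sum_comm, Finset.sum_div]
  refine tendsto_of_agree {2} (fun p hp hp2 => ?_) h0
  rw [Finset.mem_singleton] at hp2
  rw [Finset.prod_one_add, Finset.powerset_univ, Finset.sum_mul]
  refine Finset.sum_congr rfl fun S _ => ?_
  rw [ch_prod S a (hp.odd_of_ne_two hp2)]

/-- The average over the primes of degree one of `ℤ[√a₁, …, √aₘ]`, up to a finite set, of the
function `p` is `1`. -/
theorem tendsto_average {m : ℕ} {a : Fin m → ℤ}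
    (h : ∀ S : Finset (Fin m), IsSquare (∏ i ∈ S, a i) → S = ∅)
    (P : ∀ p : ℕ, Set (Roots ℤ a →+* ZMod p)) (E : Finset ℕ)
    (hP : ∀ p, p.Prime → p ∉ E → P p = Set.univ) (B : ℤ) (hB : B ≠ 0) :
    Tendsto (fun T : ℕ => average P B (fun p _ => (p : ℝ)) T) atTop (𝓝 1) := by
  classical
  have h1 : Tendsto (fun T : ℕ => (∑ p ∈ PR T, (if ¬ (p : ℤ) ∣ B then
      ∑ᶠ φ ∈ P p, (p : ℝ) * Real.log p / p else 0)) / T) atTop (𝓝 1) := by
    refine tendsto_of_agree (insert 2 (E ∪ B.natAbs.divisors)) (fun p hp hp2 => ?_) (tendsto_prod h)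
    rw [Finset.mem_insert, Finset.mem_union, Nat.mem_divisors] at hp2
    push Not at hp2
    obtain ⟨hp2, hpE, hpB⟩ := hp2
    have hB' : B.natAbs ≠ 0 := Int.natAbs_ne_zero.2 hB
    have hpB' : ¬ (p : ℤ) ∣ B := fun hd => hB' (hpB (Int.natCast_dvd.1 hd))
    have : Fact p.Prime := ⟨hp⟩
    have hp0 : (p : ℝ) ≠ 0 := by exact_mod_cast hp.ne_zero
    rw [if_pos hpB', hP p hp hpE, ← card_hom a hp2, finsum_mem_univ]
    have hfin := finite_hom a p
    have : Fintype (Roots ℤ a →+* ZMod p) := Fintype.ofFinite _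
    rw [finsum_eq_sum_of_fintype, Finset.sum_const, nsmul_eq_mul, Nat.card_eq_fintype_card,
      Finset.card_univ, mul_div_assoc, mul_comm (p : ℝ), div_mul_cancel₀ _ hp0]
  refine h1.congr fun T => ?_
  unfold average
  rw [← Finset.sum_filter]
  unfold PR
  rw [Finset.filter_filter]

/-- The average over the primes of the functions bounded by `C log p / p` tends to `0`. -/
lemma tendsto_small {u : ℕ → ℝ} (C : ℝ) (h : ∀ p, p.Prime → |u p| ≤ C * (Real.log p / p)) :
    Tendsto (fun T : ℕ => (∑ p ∈ PR T, u p) / T) atTop (𝓝 0) := by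
  classical
  have h1 : Tendsto (fun n : ℕ => Real.log n / (n : ℝ)) atTop (𝓝 0) := by
    have h2 := (Real.isLittleO_log_id_atTop).tendsto_div_nhds_zero
    exact h2.comp tendsto_natCast_atTop_atTop
  have h3 : Tendsto (fun n : ℕ => |C| * (Real.log (n + 1 : ℕ) / ((n + 1 : ℕ) : ℝ))) atTop
      (𝓝 (|C| * 0)) := ((tendsto_add_atTop_iff_nat 1).2 h1).const_mul _
  rw [mul_zero] at h3
  have h4 := h3.cesaro
  refine squeeze_zero_norm (fun T => ?_) h4
  rw [Real.norm_eq_abs, abs_div, Nat.abs_cast, div_eq_inv_mul]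
  apply mul_le_mul_of_nonneg_left _ (inv_nonneg.2 (Nat.cast_nonneg T))
  have h5 : ∑ p ∈ PR T, |u p| ≤ ∑ p ∈ Icc 1 T, |C| * (Real.log p / p) := by
    unfold PR
    rw [Finset.sum_filter]
    refine Finset.sum_le_sum fun p _ => ?_
    have h6 : 0 ≤ Real.log p / p := div_nonneg (Real.log_natCast_nonneg p) (Nat.cast_nonneg p)
    split_ifs with hp
    · exact (h p hp).trans (mul_le_mul_of_nonneg_right (le_abs_self C) h6)
    · exact mul_nonneg (abs_nonneg C) h6
  refine (Finset.abs_sum_le_sum_abs _ _).trans (h5.trans (le_of_eq ?_))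
  have h7 : Icc 1 T = (range T).image (fun n => n + 1) := by
    ext k
    rw [Finset.mem_Icc, Finset.mem_image]
    constructor
    · rintro ⟨h8, h9⟩
      exact ⟨k - 1, Finset.mem_range.2 (by omega), by omega⟩
    · rintro ⟨n, hn, rfl⟩
      rw [Finset.mem_range] at hn
      omega
  rw [h7, Finset.sum_image (fun x _ y _ hxy => by omega)]

/-- The same for every function `β` with `|β - p| ≤ C`. -/
theorem tendsto_average_of_le {m : ℕ} {a : Fin m → ℤ}
    (h : ∀ S : Finset (Fin m), IsSquare (∏ i ∈ S, a i) → S = ∅)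
    (P : ∀ p : ℕ, Set (Roots ℤ a →+* ZMod p)) (E : Finset ℕ)
    (hP : ∀ p, p.Prime → p ∉ E → P p = Set.univ) (B : ℤ) (hB : B ≠ 0)
    (β : ∀ p : ℕ, (Roots ℤ a →+* ZMod p) → ℝ) (C : ℝ)
    (hβ : ∀ p, p.Prime → ∀ φ ∈ P p, |β p φ - p| ≤ C) :
    Tendsto (fun T : ℕ => average P B β T) atTop (𝓝 1) := by
  classical
  have h1 := tendsto_average h P E hP B hB
  have h2 : Tendsto (fun T : ℕ => (∑ p ∈ PR T, (if ¬ (p : ℤ) ∣ B then
      (∑ᶠ φ ∈ P p, (β p φ * Real.log p / p)) - (∑ᶠ φ ∈ P p, (p : ℝ) * Real.log p / p) else 0))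
        / T) atTop (𝓝 0) := by
    refine tendsto_small (2 ^ m * |C|) fun p hp => ?_
    have hfact : Fact p.Prime := ⟨hp⟩
    have hlog : 0 ≤ Real.log p / p := div_nonneg (Real.log_natCast_nonneg p) (Nat.cast_nonneg p)
    have h3 : 0 ≤ 2 ^ m * |C| * (Real.log p / p) := by positivity
    split_ifs with hpB
    · rw [abs_zero]
      exact h3
    have hfin := finite_hom a p
    have hft : Fintype (Roots ℤ a →+* ZMod p) := Fintype.ofFinite _
    have hcard : Fintype.card (Roots ℤ a →+* ZMod p) ≤ 2 ^ m := by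
      rw [← Nat.card_eq_fintype_card, Nat.card_congr (homRoots a p), Nat.card_pi]
      have h4 : ∀ i ∈ (Finset.univ : Finset (Fin m)),
          Nat.card {s : ZMod p // s ^ 2 = (a i : ZMod p)} ≤ 2 := by
        intro i _
        rw [Nat.card_eq_fintype_card, Fintype.card_subtype]
        exact card_roots_le _
      refine (Finset.prod_le_prod' h4).trans (le_of_eq ?_)
      rw [Finset.prod_const, Finset.card_univ, Fintype.card_fin]
    have h5 : ∀ g : (Roots ℤ a →+* ZMod p) → ℝ, ∑ᶠ φ ∈ P p, g φ =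
        ∑ φ : Roots ℤ a →+* ZMod p, if φ ∈ P p then g φ else 0 := by
      intro g
      rw [finsum_eq_sum_of_fintype]
      refine Finset.sum_congr rfl fun φ _ => ?_
      rw [finsum_eq_if]
    rw [h5, h5, ← Finset.sum_sub_distrib]
    refine (Finset.abs_sum_le_sum_abs _ _).trans ?_
    have h6 : ∀ φ ∈ (Finset.univ : Finset (Roots ℤ a →+* ZMod p)),
        |(if φ ∈ P p then β p φ * Real.log p / p else 0) -
          (if φ ∈ P p then (p : ℝ) * Real.log p / p else 0)| ≤ |C| * (Real.log p / p) := by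
      intro φ _
      split_ifs with hφ
      · rw [mul_div_assoc, mul_div_assoc, ← sub_mul, abs_mul, abs_of_nonneg hlog]
        exact mul_le_mul_of_nonneg_right ((hβ p hp φ hφ).trans (le_abs_self C)) hlog
      · rw [sub_zero, abs_zero]
        exact mul_nonneg (abs_nonneg C) hlog
    refine (Finset.sum_le_sum h6).trans ?_
    rw [Finset.sum_const, nsmul_eq_mul, Finset.card_univ, ← mul_assoc]
    apply mul_le_mul_of_nonneg_right _ hlog
    apply mul_le_mul_of_nonneg_right _ (abs_nonneg C)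
    exact_mod_cast hcard
  have h3 := h2.add h1
  rw [zero_add] at h3
  refine h3.congr fun T => ?_
  unfold average
  rw [← add_div]
  congr 1
  rw [← Finset.sum_filter]
  unfold PR
  rw [Finset.filter_filter, ← Finset.sum_add_distrib]
  exact Finset.sum_congr rfl fun p _ => by ring

end Pool.Agent.DPL
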