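import Pool.Agent.DPL.Multi
import Pool.Agent.DPL.Limit
import Pool.Agent.DPL.Excep

/-!
# Double planes over multiquadratic fields: the conjecture up to `ε`
-/

set_option autoImplicit false

namespace Pool.Agent.DPL

open Finset Filter Topology
open Pool.Agent.Helper76.DIL (Indep norms Roots incl delta above badNumber average restrict)

/-- All but finitely many primes are good. -/
lemma exists_goodPrimes {s : ℕ} (hs : 2 ≤ s) {e : ℤ} {g : Polynomial ℤ} (he : e ≠ 0)
    (hg : Squarefree (g.map (Int.castRingHom ℚ))) (hd : s ≤ g.natDegree + 1) :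
    ∃ E : Finset ℕ, ∀ p, p.Prime → p ∉ E → goodPrimes s e g p = Set.univ := by
  obtain ⟨E, hE⟩ := exists_excep g hg
  refine ⟨E ∪ (2 * s * e).natAbs.primeFactors, fun p hp hpE => ?_⟩
  rw [Finset.mem_union, not_or] at hpE
  obtain ⟨h1, h2⟩ := hE p hp hpE.1
  have hne : (2 * s * e).natAbs ≠ 0 := by
    apply Int.natAbs_ne_zero.2
    apply mul_ne_zero _ he
    have : (s : ℤ) ≠ 0 := by exact_mod_cast (by omega : s ≠ 0)
    exact mul_ne_zero (by norm_num) this
  have hdvd : ¬ (p : ℤ) ∣ 2 * s * e := fun h =>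
    hpE.2 (Nat.mem_primeFactors.2 ⟨hp, Int.natCast_dvd.1 h, hne⟩)
  ext φ
  have hφ : φ = Int.castRingHom (ZMod p) := Subsingleton.elim _ _
  subst hφ
  simp only [Set.mem_univ, iff_true]
  refine ⟨?_, ?_, h1, ?_⟩
  · intro h
    apply hdvd
    have h3 : (p : ℤ) ∣ ((2 * s : ℕ) : ℤ) := Int.natCast_dvd_natCast.2 h
    push_cast at h3
    exact h3.mul_right _
  · rw [eq_intCast, Ne, ZMod.intCast_zmod_eq_zero_iff_dvd]
    exact fun h => hdvd (h.mul_left _)
  · rw [h2]
    exact hd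

/-- **The double planes `y ^ 2 = δ (e z ^ s + g (x₀, x₁))` over `R[√a₁, …, √aₘ]`.** -/
theorem planes (s : ℕ) (hs : 2 ≤ s) : ∃ D : ℝ, 0 ≤ D ∧ ∀ m : ℕ,
    ∀ a u v : Fin m → ℤ, Indep a (norms a u v) →
    (∀ (d : ℕ) (ε : ℝ), 0 < ε → ∃ T₀ : ℕ,
    ∀ (R : Type) [CommRing R] (_b : Module.Basis (Fin d) ℤ R) (e : R) (g : Polynomial R),
      g.natDegree ≤ s → ∀ T : ℕ, T₀ ≤ T →
        |average (above a (goodPrimes s e g)) (badNumber a u v)
            (planeTrace (MvPolynomial.C (delta R a u v) *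
              MvPolynomial.map (incl R a) (planeForm s e g))) T -
          average (above a (goodPrimes s e g)) (badNumber a u v) (fun p _ => (p : ℝ)) T| ≤
          d * D / 2 ^ m + ε) ∧
    ∀ (e : ℤ) (g : Polynomial ℤ), e ≠ 0 → Squarefree (g.map (Int.castRingHom ℚ)) →
      g.natDegree ≤ s → s ≤ g.natDegree + 1 → ∀ ε : ℝ, 0 < ε → ∃ T₁ : ℕ, ∀ T : ℕ, T₁ ≤ T →
        |average (above a (goodPrimes s e g)) (badNumber a u v)
            (planeTrace (MvPolynomial.C (delta ℤ a u v) *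
              MvPolynomial.map (incl ℤ a) (planeForm s e g))) T - 1| ≤ D / 2 ^ m + ε := by
  obtain ⟨D, hD, H⟩ := close_planes s hs
  refine ⟨D, hD, fun m a u v hI => ⟨H m a u v hI, ?_⟩⟩
  intro e g he hg hd hd' ε hε
  obtain ⟨T₀, hT₀⟩ := H m a u v hI 1 (ε / 2) (half_pos hε)
  obtain ⟨E, hE⟩ := exists_goodPrimes hs he hg hd'
  have hS : ∀ S : Finset (Fin m), IsSquare (∏ i ∈ S, a i) → S = ∅ := by
    intro S hS
    exact (hI S ∅ (by rw [Finset.prod_empty, mul_one]; exact hS)).1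
  have hlim := tendsto_average hS (above a (goodPrimes s e g)) E
    (fun p hp hpE => by
      ext φ
      unfold above
      rw [hE p hp hpE]
      simp) (badNumber a u v) (Helper76.DIL.Indep.bad_ne_zero hI)
  obtain ⟨T₁, hT₁⟩ := (Metric.tendsto_atTop.1 hlim) (ε / 2) (half_pos hε)
  refine ⟨max T₀ T₁, fun T hT => ?_⟩
  have h1 := hT₀ ℤ (Module.Basis.singleton (Fin 1) ℤ) e g hd T ((le_max_left _ _).trans hT)
  have h2 := hT₁ T ((le_max_right _ _).trans hT)
  rw [Real.dist_eq] at h2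
  rw [Nat.cast_one, one_mul] at h1
  calc _ ≤ |average (above a (goodPrimes s e g)) (badNumber a u v)
            (planeTrace (MvPolynomial.C (delta ℤ a u v) *
              MvPolynomial.map (incl ℤ a) (planeForm s e g))) T -
          average (above a (goodPrimes s e g)) (badNumber a u v) (fun p _ => (p : ℝ)) T| +
        |average (above a (goodPrimes s e g)) (badNumber a u v) (fun p _ => (p : ℝ)) T - 1| :=
        abs_sub_le _ _ _
    _ ≤ (D / 2 ^ m + ε / 2) + ε / 2 := add_le_add h1 h2.le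
    _ = D / 2 ^ m + ε := by ring

end Pool.Agent.DPL
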