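import Mathlib

/-!
# The number of the polynomials which are not squarefree
-/

set_option autoImplicit false

namespace Pool.Agent.DPL

open Finset Polynomial

section

variable {F : Type} [Field F]

/-- The polynomial with given coefficients. -/
noncomputable def polyOf {n : ℕ} (g : Fin n → F) : F[X] := ∑ i : Fin n, C (g i) * X ^ (i : ℕ)

lemma eq_polyOf {n : ℕ} (f : F[X]) (h : f.natDegree < n) :
    f = polyOf fun i : Fin n => f.coeff i := by
  conv_lhs => rw [f.as_sum_range_C_mul_X_pow' h]
  unfold polyOf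
  rw [Finset.sum_range]

lemma coeff_polyOf {n : ℕ} (g : Fin n → F) (i : Fin n) : (polyOf g).coeff i = g i := by
  unfold polyOf
  rw [finsetSum_coeff, Finset.sum_eq_single i]
  · rw [coeff_C_mul, coeff_X_pow_self, mul_one]
  · intro j _ hj
    rw [coeff_C_mul, coeff_X_pow, if_neg, mul_zero]
    intro h
    exact hj (Fin.ext h.symm)
  · intro h
    exact absurd (mem_univ i) h

lemma polyOf_injective (n : ℕ) : Function.Injective (polyOf : (Fin n → F) → F[X]) := by
  intro g g' h
  funext i
  rw [← coeff_polyOf g i, h, coeff_polyOf]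

lemma natDegree_polyOf_lt {n : ℕ} (hn : 0 < n) (g : Fin n → F) : (polyOf g).natDegree < n := by
  unfold polyOf
  refine Nat.lt_of_le_pred hn ?_
  refine natDegree_sum_le_of_forall_le _ _ fun i _ => ?_
  refine (natDegree_C_mul_X_pow_le _ _).trans ?_
  have := i.2
  simp only [Nat.pred_eq_sub_one]
  omega

/-- Polynomials which are not squarefree. -/
lemma exists_of_not_squarefree {s : ℕ} (hs : 2 ≤ s) (f : F[X]) (hf : f.natDegree ≤ s)
    (h : ¬ Squarefree f) : ∃ j ∈ Finset.Icc 1 (s / 2), ∃ (r : Fin j → F)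
      (k : Fin (s - 2 * j + 1) → F), f = (X ^ j + polyOf r) ^ 2 * polyOf k := by
  by_cases hf0 : f = 0
  · refine ⟨1, Finset.mem_Icc.2 ⟨le_rfl, by omega⟩, 0, 0, ?_⟩
    rw [hf0]
    unfold polyOf
    simp
  · rw [squarefree_iff_irreducible_sq_not_dvd_of_ne_zero hf0] at h
    push Not at h
    obtain ⟨x, hx, hxf⟩ := h
    have hx0 : x ≠ 0 := hx.ne_zero
    obtain ⟨y, hy⟩ : ∃ y, y = x * C x.leadingCoeff⁻¹ := ⟨_, rfl⟩
    have hym : y.Monic := by rw [hy]; exact monic_mul_leadingCoeff_inv hx0
    have hass : Associated x y := by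
      rw [hy]
      refine (associated_mul_unit_left x _ ?_).symm
      exact isUnit_C.2 (isUnit_iff_ne_zero.2 (inv_ne_zero (leadingCoeff_ne_zero.2 hx0)))
    have hyf : y * y ∣ f := (hass.mul_mul hass).dvd_iff_dvd_left.1 hxf
    have hyi : Irreducible y := hass.irreducible hx
    obtain ⟨k, hk⟩ := hyf
    have hk0 : k ≠ 0 := by
      rintro rfl
      rw [mul_zero] at hk
      exact hf0 hk
    have hy0 : y ≠ 0 := hym.ne_zero
    have hdeg : f.natDegree = 2 * y.natDegree + k.natDegree := by
      rw [hk, natDegree_mul (mul_ne_zero hy0 hy0) hk0, natDegree_mul hy0 hy0]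
      ring
    have hyd : 0 < y.natDegree := hyi.natDegree_pos
    obtain ⟨j, hj⟩ : ∃ j, j = y.natDegree := ⟨_, rfl⟩
    refine ⟨j, Finset.mem_Icc.2 ⟨by omega, by omega⟩, fun i => (y - X ^ j).coeff i,
      fun i => k.coeff i, ?_⟩
    rw [← eq_polyOf k (by omega), ← eq_polyOf (y - X ^ j)]
    · rw [hk]
      ring
    · have h1 : (y - X ^ j).degree < y.degree := by
        refine degree_sub_lt_left ?_ hy0 ?_
        · rw [degree_X_pow, hj, degree_eq_natDegree hy0]
        · rw [hym.leadingCoeff, leadingCoeff_X_pow]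
      by_cases h2 : y - X ^ j = 0
      · rw [h2, natDegree_zero]
        omega
      · have h3 := natDegree_lt_natDegree h2 h1
        omega

end

/-- The number of the polynomials which are not squarefree. -/
theorem card_not_squarefree {F : Type} [Field F] [Fintype F] [DecidableEq F] {s : ℕ}
    (hs : 2 ≤ s) :
    Nat.card {g : Fin (s + 1) → F // ¬ Squarefree (polyOf g)} ≤ 2 * Fintype.card F ^ s := by
  classical
  obtain ⟨q, hq⟩ : ∃ q, q = Fintype.card F := ⟨_, rfl⟩
  have hq2 : 2 ≤ q := by rw [hq]; exact Fintype.one_lt_card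
  rw [Nat.card_eq_fintype_card, Fintype.card_subtype, ← hq]
  have h1 : ((univ : Finset (Fin (s + 1) → F)).filter fun g => ¬ Squarefree (polyOf g)).image
      polyOf ⊆ (Finset.Icc 1 (s / 2)).biUnion fun j =>
        (univ : Finset ((Fin j → F) × (Fin (s - 2 * j + 1) → F))).image
          fun z => (X ^ j + polyOf z.1) ^ 2 * polyOf z.2 := by
    intro f hf
    obtain ⟨g, hg, rfl⟩ := Finset.mem_image.1 hf
    have h2 := (Finset.mem_filter.1 hg).2
    have h3 := natDegree_polyOf_lt (Nat.succ_pos s) g
    obtain ⟨j, hj, r, k, hrk⟩ := exists_of_not_squarefree hs (polyOf g) (by omega) h2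
    exact Finset.mem_biUnion.2 ⟨j, hj, Finset.mem_image.2 ⟨(r, k), mem_univ _, hrk.symm⟩⟩
  have h2 := Finset.card_le_card h1
  rw [Finset.card_image_of_injective _ (polyOf_injective _)] at h2
  refine h2.trans (Finset.card_biUnion_le.trans ?_)
  have h3 : ∀ j ∈ Finset.Icc 1 (s / 2),
      ((univ : Finset ((Fin j → F) × (Fin (s - 2 * j + 1) → F))).image
          fun z => (X ^ j + polyOf z.1) ^ 2 * polyOf z.2).card ≤ q ^ (s + 1 - j) := by
    intro j hj
    have hj' := Finset.mem_Icc.1 hj
    refine Finset.card_image_le.trans (le_of_eq ?_)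
    rw [Finset.card_univ, Fintype.card_prod, Fintype.card_fun, Fintype.card_fun, Fintype.card_fin,
      Fintype.card_fin, ← hq, ← pow_add]
    congr 1
    omega
  refine (Finset.sum_le_sum h3).trans ?_
  have h4 : ∀ n : ℕ, n ≤ s → ∑ j ∈ Finset.Icc 1 n, q ^ (s + 1 - j) + 2 * q ^ (s - n) ≤ 2 * q ^ s := by
    intro n
    induction n with
    | zero =>
      intro _
      simp only [Finset.Icc_eq_empty_of_lt (Nat.zero_lt_one), Finset.sum_empty, Nat.sub_zero]
      omega
    | succ n ih =>
      intro hn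
      have h5 := ih (by omega)
      rw [Finset.sum_Icc_succ_top (by omega)]
      have h6 : s + 1 - (n + 1) = s - n := by omega
      rw [h6]
      have h7 : q ^ (s - n) = q * q ^ (s - (n + 1)) := by
        rw [← pow_succ']
        congr 1
        omega
      have h8 : 2 * q ^ (s - (n + 1)) ≤ q ^ (s - n) := by
        rw [h7]
        exact Nat.mul_le_mul_right _ hq2
      omega
  exact (Nat.le_add_right _ _).trans (h4 (s / 2) (Nat.div_le_self _ _))

end Pool.Agent.DPL
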