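import Pool.Agent.LRP.Stepanov

/-! The sum of the quadratic character over the values of `v + c z ^ s`. -/

set_option autoImplicit false

namespace Pool.Agent.DPL

open Polynomial Finset

/-- The sum of the quadratic character over the values of `v + c z ^ s`. -/
theorem pow_sum (s : ℕ) (hs : 1 ≤ s) : ∃ C : ℝ, 0 ≤ C ∧
    ∀ (F : Type) [Field F] [Fintype F] [DecidableEq F], ringChar F ≠ 2 → (s : F) ≠ 0 →
      ∀ v c : F, v ≠ 0 → c ≠ 0 →
        |((∑ z : F, quadraticChar F (v + c * z ^ s) : ℤ) : ℝ)| ≤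
          C * Real.sqrt (Fintype.card F) := by
  obtain ⟨K, hK0, hK⟩ := Pool.Agent.LRP.stepanov s
  refine ⟨K, hK0, ?_⟩
  intro F _ _ _ hF hsF v c hv hc
  obtain ⟨f, hf⟩ : ∃ f : F[X], f = C c * (X ^ s - C (-(v / c))) := ⟨_, rfl⟩
  have h1 : Squarefree (X ^ s - C (-(v / c)) : F[X]) :=
    (separable_X_pow_sub_C _ hsF (neg_ne_zero.2 (div_ne_zero hv hc))).squarefree
  have hu : IsUnit (C c : F[X]) := isUnit_C.2 (isUnit_iff_ne_zero.2 hc)
  have h2 : Squarefree f := by
    rw [hf]
    exact (associated_unit_mul_left _ _ hu).squarefree_iff.2 h1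
  have h3 : f.natDegree = s := by
    rw [hf, natDegree_C_mul hc, natDegree_X_pow_sub_C]
  have h4 := hK F hF f h2 (by omega) (by omega)
  have h5 : ∀ z : F, f.eval z = v + c * z ^ s := by
    intro z
    rw [hf]
    simp only [eval_mul, eval_C, eval_sub, eval_pow, eval_X]
    field_simp
    ring
  simp only [h5] at h4
  exact h4

end Pool.Agent.DPL
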