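import Mathlib

/-!
The reduction of Stepanov's bound to the polynomials with nonzero constant term.
-/

set_option autoImplicit false

namespace Pool.Agent.DPL

open Polynomial Finset

/-- R2b: the shift -/
theorem count_shift (m d : ℕ) (hd : 0 < d) (hC : ∃ C : ℝ, 0 ≤ C ∧
    ∀ (F : Type) [Field F] [Fintype F] [DecidableEq F] (f : F[X]), Squarefree f →
      1 ≤ f.natDegree → f.natDegree ≤ m → f.coeff 0 ≠ 0 → ∀ h : ℕ,
        Fintype.card F = d * h + 1 → ∀ a : F,
        ((univ.filter fun x : F => f.eval x ≠ 0 ∧ f.eval x ^ h = a).card : ℝ) ≤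
          (Fintype.card F : ℝ) / d + C * Real.sqrt (Fintype.card F)) :
    ∃ C : ℝ, 0 ≤ C ∧
    ∀ (F : Type) [Field F] [Fintype F] [DecidableEq F] (f : F[X]), Squarefree f →
      1 ≤ f.natDegree → f.natDegree ≤ m → ∀ h : ℕ, Fintype.card F = d * h + 1 → ∀ a : F,
        ((univ.filter fun x : F => f.eval x ≠ 0 ∧ f.eval x ^ h = a).card : ℝ) ≤
          (Fintype.card F : ℝ) / d + C * Real.sqrt (Fintype.card F) := by
  obtain ⟨C, hC0, hC⟩ := hC
  refine ⟨max C m, le_max_of_le_left hC0, fun F _ _ _ f hf h1 hm h hq a => ?_⟩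
  have hs1 : 1 ≤ Real.sqrt (Fintype.card F) := by
    rw [Real.one_le_sqrt]
    exact_mod_cast Fintype.card_pos
  have hqd : (0 : ℝ) ≤ (Fintype.card F : ℝ) / d := by positivity
  by_cases hqm : Fintype.card F ≤ m
  · have h2 : ((univ.filter fun x : F => f.eval x ≠ 0 ∧ f.eval x ^ h = a).card : ℝ) ≤ m := by
      have h3 : (univ.filter fun x : F => f.eval x ≠ 0 ∧ f.eval x ^ h = a).card ≤
          Fintype.card F := Finset.card_filter_le _ _
      exact_mod_cast h3.trans hqm
    have h3 : (m : ℝ) ≤ max C m * Real.sqrt (Fintype.card F) := by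
      have h4 : (m : ℝ) ≤ max C m := le_max_right _ _
      have h5 : (0 : ℝ) ≤ max C m := le_max_of_le_left hC0
      nlinarith
    linarith
  · push Not at hqm
    have hf0 : f ≠ 0 := hf.ne_zero
    obtain ⟨x₀, hx₀⟩ : ∃ x₀ : F, f.eval x₀ ≠ 0 := by
      by_contra hcon
      push Not at hcon
      have h2 : (univ : Finset F) ⊆ f.roots.toFinset := by
        intro x _
        rw [Multiset.mem_toFinset, mem_roots hf0]
        exact hcon x
      have h3 := Finset.card_le_card h2
      have h4 := f.roots.toFinset_card_le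
      have h5 := f.card_roots'
      rw [Finset.card_univ] at h3
      omega
    have hsq : Squarefree (taylor x₀ f) := by
      intro p hp
      have h2 : taylor (-x₀) p * taylor (-x₀) p ∣ f := by
        obtain ⟨c, hc⟩ := hp
        refine ⟨taylor (-x₀) c, ?_⟩
        have h3 := congrArg (taylor (-x₀)) hc
        rw [taylor_taylor, neg_add_cancel, taylor_zero, taylor_mul, taylor_mul] at h3
        exact h3
      have h3 := hf _ h2
      have h4 : taylor x₀ (taylor (-x₀) p) = p := by
        rw [taylor_taylor, add_neg_cancel, taylor_zero]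
      rw [← h4]
      exact h3.map (taylorAlgHom x₀)
    have hcoeff : (taylor x₀ f).coeff 0 ≠ 0 := by
      rw [taylor_coeff_zero]
      exact hx₀
    have hdeg : (taylor x₀ f).natDegree = f.natDegree := natDegree_taylor f x₀
    have key := hC F (taylor x₀ f) hsq (by rw [hdeg]; exact h1) (by rw [hdeg]; exact hm)
      hcoeff h hq a
    have hcard : (univ.filter fun x : F => f.eval x ≠ 0 ∧ f.eval x ^ h = a).card =
        (univ.filter fun x : F => (taylor x₀ f).eval x ≠ 0 ∧
          (taylor x₀ f).eval x ^ h = a).card := by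
      refine Finset.card_bij' (fun x _ => x - x₀) (fun x _ => x + x₀) ?_ ?_ ?_ ?_
      · intro x hx
        rw [Finset.mem_filter] at hx ⊢
        rw [taylor_eval, sub_add_cancel]
        exact ⟨Finset.mem_univ _, hx.2⟩
      · intro x hx
        rw [Finset.mem_filter, taylor_eval] at hx
        rw [Finset.mem_filter]
        exact ⟨Finset.mem_univ _, hx.2⟩
      · intro x _
        exact sub_add_cancel x x₀
      · intro x _
        exact add_sub_cancel_right x x₀
    rw [hcard]
    have h5 : C * Real.sqrt (Fintype.card F) ≤ max C m * Real.sqrt (Fintype.card F) :=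
      mul_le_mul_of_nonneg_right (le_max_left _ _) (Real.sqrt_nonneg _)
    linarith

end Pool.Agent.DPL
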