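import Pool.Agent.DPL.CountCore
import Pool.Agent.DPL.Shift

/-!
Stepanov's bound for `y ^ d = f (x)`.
-/

set_option autoImplicit false

namespace Pool.Agent.DPL

open Polynomial Finset

/-- Stepanov's bound for the number of the points where a power of a squarefree polynomial has a
given value. -/
theorem count_gen (m d : ℕ) (hd : 0 < d) : ∃ C : ℝ, 0 ≤ C ∧
    ∀ (F : Type) [Field F] [Fintype F] [DecidableEq F] (f : F[X]), Squarefree f →
      1 ≤ f.natDegree → f.natDegree ≤ m → ∀ h : ℕ, Fintype.card F = d * h + 1 → ∀ a : F,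
        ((univ.filter fun x : F => f.eval x ≠ 0 ∧ f.eval x ^ h = a).card : ℝ) ≤
          (Fintype.card F : ℝ) / d + C * Real.sqrt (Fintype.card F) := by
  refine count_shift m d hd ⟨3 * (2 * d * m + 2 * d + 1) + 4 * (d * (m + 2)), by positivity,
    fun F _ _ _ f hf h1 hm h0 h hq a => ?_⟩
  set S := univ.filter fun x : F => f.eval x ≠ 0 ∧ f.eval x ^ h = a with hS
  have hSq : S.card ≤ Fintype.card F := Finset.card_le_univ _
  have hqpos : 1 ≤ Fintype.card F := Fintype.card_pos
  set q := Fintype.card F with hqdef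
  have hqR : (1 : ℝ) ≤ q := by exact_mod_cast hqpos
  have hsq : Real.sqrt q * Real.sqrt q = q := Real.mul_self_sqrt (by positivity)
  have hsq1 : 1 ≤ Real.sqrt q := Real.one_le_sqrt.2 hqR
  set l := Nat.sqrt q with hl
  have hl1 : l * l ≤ q := Nat.sqrt_le q
  have hl2 : q ≤ l * l + l + l := Nat.sqrt_le_add q
  have hlr : (l : ℝ) ≤ Real.sqrt q := by
    rw [hl]; exact Real.nat_sqrt_le_real_sqrt
  have hdR : (1 : ℝ) ≤ d := by exact_mod_cast hd
  have hd0 : (0 : ℝ) < d := by linarith
  have hqd : (0 : ℝ) ≤ (q : ℝ) / d := by positivity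
  have hSR : (S.card : ℝ) ≤ q := by exact_mod_cast hSq
  have hm0 : (0 : ℝ) ≤ m := Nat.cast_nonneg m
  rcases lt_or_ge l (4 * (d * (m + 2))) with hsmall | hbig
  · have h2 : q ≤ (4 * (d * (m + 2))) * (4 * (d * (m + 2))) := by nlinarith
    have h3 : Real.sqrt q ≤ 4 * (d * (m + 2)) := by
      rw [Real.sqrt_le_left (by positivity)]
      have : (q : ℝ) ≤ (4 * (d * (m + 2))) * (4 * (d * (m + 2))) := by exact_mod_cast h2
      nlinarith
    have h4 : (q : ℝ) ≤ 4 * (d * (m + 2)) * Real.sqrt q := by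
      calc (q : ℝ) = Real.sqrt q * Real.sqrt q := hsq.symm
        _ ≤ _ := mul_le_mul_of_nonneg_right h3 (by positivity)
    have h5 : (0 : ℝ) ≤ 3 * (2 * d * m + 2 * d + 1) * Real.sqrt q := by positivity
    have h6 : (3 * (2 * (d : ℝ) * m + 2 * d + 1) + 4 * (d * (m + 2))) * Real.sqrt q =
      3 * (2 * d * m + 2 * d + 1) * Real.sqrt q + 4 * (d * (m + 2)) * Real.sqrt q := by ring
    rw [h6]
    linarith
  · have e1 := count_core f hf h1 h0 m hm d hd h hq a l hl1 hbig S
      (fun x hx => (Finset.mem_filter.1 hx).2)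
    have e2 : (d * (l * S.card) : ℝ) ≤ q * l + q * (2 * d * m + 2 * d + 1) := by
      exact_mod_cast e1
    have e3 : (q : ℝ) ≤ l * (l + 2) := by
      have : (q : ℝ) ≤ l * l + l + l := by exact_mod_cast hl2
      linarith
    have hlpos : 0 < l := by
      refine lt_of_lt_of_le ?_ hbig
      positivity
    have hlp : (0 : ℝ) < l := by exact_mod_cast hlpos
    set K : ℝ := 2 * d * m + 2 * d + 1 with hK
    have hK0 : 0 ≤ K := by positivity
    have e4 : (q : ℝ) * K ≤ l * (l + 2) * K := mul_le_mul_of_nonneg_right e3 hK0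
    have e5 : (l : ℝ) * (d * S.card) ≤ l * (q + (l + 2) * K) := by nlinarith
    have e6 : (d : ℝ) * S.card ≤ q + (l + 2) * K := le_of_mul_le_mul_left e5 hlp
    have e7 : (l : ℝ) + 2 ≤ 3 * Real.sqrt q := by linarith
    have e8 : ((l : ℝ) + 2) * K ≤ 3 * Real.sqrt q * K := mul_le_mul_of_nonneg_right e7 hK0
    have e9 : (S.card : ℝ) ≤ (q + 3 * Real.sqrt q * K) / d := by
      rw [le_div_iff₀ hd0]
      linarith
    have e10 : (q + 3 * Real.sqrt q * K) / d = (q : ℝ) / d + 3 * Real.sqrt q * K / d := by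
      rw [add_div]
    have e11 : 3 * Real.sqrt q * K / d ≤ 3 * Real.sqrt q * K :=
      div_le_self (by positivity) hdR
    have e12 : (0 : ℝ) ≤ 4 * (d * (m + 2)) * Real.sqrt q := by positivity
    have e13 : (3 * K + 4 * (d * (m + 2))) * Real.sqrt q =
      3 * Real.sqrt q * K + 4 * (d * (m + 2)) * Real.sqrt q := by ring
    rw [e13]
    linarith

end Pool.Agent.DPL
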