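import Pool.Agent.DPL.ThueOf
import Pool.Agent.DPL.Count

/-! The number of solutions of a Thue equation over a finite field, from Stepanov's bound. -/

set_option autoImplicit false

namespace Pool.Agent.DPL

open Polynomial Finset

/-- The points of the curve `g (x, y) = v`. -/
theorem thue (s : ℕ) (hs : 2 ≤ s) : ∃ C : ℝ, 0 ≤ C ∧
    ∀ (F : Type) [Field F] [Fintype F] [DecidableEq F] (g : F[X]), Squarefree g →
      s ≤ g.natDegree + 1 → g.natDegree ≤ s → ∀ v : F, v ≠ 0 →
        |((univ.filter fun x : F × F => bform s g x.1 x.2 = v).card : ℝ) - Fintype.card F| ≤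
          C * Real.sqrt (Fintype.card F) := by
  choose K hK0 hK using fun d : ℕ => count_gen s (d + 1) (Nat.succ_pos d)
  have hsum0 : 0 ≤ ∑ d ∈ range s, K d := Finset.sum_nonneg fun d _ => hK0 d
  refine ⟨s + s * s + s * s * ∑ d ∈ range s, K d, by positivity, ?_⟩
  intro F _ _ _ g hg hg1 hg2 v hv
  have hg0 : g ≠ 0 := hg.ne_zero
  refine thue_of s hs g hg0 hg2 _ hsum0 ?_ v hv
  intro d h hd hds hq a
  obtain ⟨e, rfl⟩ : ∃ e, d = e + 1 := ⟨d - 1, by omega⟩
  refine (hK e F g hg (by omega) hg2 h hq a).trans ?_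
  have h1 : K e ≤ ∑ d ∈ range s, K d :=
    Finset.single_le_sum (f := K) (fun d _ => hK0 d) (Finset.mem_range.2 (by omega))
  have h2 : 0 ≤ Real.sqrt (Fintype.card F) := Real.sqrt_nonneg _
  have h3 := mul_le_mul_of_nonneg_right h1 h2
  linarith

end Pool.Agent.DPL
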