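import Pool.Agent.DPL.Plane
import Pool.Agent.DPL.Thue
import Pool.Agent.DPL.PowSum

/-!
# The bounds for the double planes
-/

set_option autoImplicit false

namespace Pool.Agent.DPL

open Finset

/-- the sum of the quadratic character over the values of the form -/
theorem total (s : ℕ) (hs : 2 ≤ s) : ∃ M : ℝ, 0 ≤ M ∧
    ∀ (F : Type) [Field F] [Fintype F] [DecidableEq F], ringChar F ≠ 2 → (s : F) ≠ 0 →
      ∀ (c : F) (g : Polynomial F), c ≠ 0 → Squarefree g → s ≤ g.natDegree + 1 →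
        g.natDegree ≤ s →
        |((∑ x : F × F, ∑ z : F, quadraticChar F (bform s g x.1 x.2 + c * z ^ s) : ℤ) : ℝ)| ≤
          M * (Fintype.card F * (Fintype.card F - 1)) := by
  obtain ⟨C₁, hC₁, h₁⟩ := pow_sum s (by omega)
  obtain ⟨C₂, hC₂, h₂⟩ := thue s hs
  refine ⟨s + 1 + C₂ * C₁, by positivity, ?_⟩
  intro F _ _ _ hF hsF c g hc hg hd hd'
  exact total_of s hs hF c g hg.ne_zero hd' C₁ C₂ hC₂ (fun v hv => h₁ F hF hsF v c hv hc)
    (fun v hv => h₂ F g hg hd hd' v hv)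

/-- a squarefree polynomial over a finite field remains squarefree over an extension -/
lemma squarefree_map {F K : Type} [Field F] [Finite F] [Field K] (φ : F →+* K)
    {g : Polynomial F} (hg : Squarefree g) : Squarefree (g.map φ) :=
  (PerfectField.separable_iff_squarefree.2 hg).map.squarefree

/-- The numbers of points of the double planes over all finite fields. -/
theorem cover_bound (s : ℕ) (hs : 2 ≤ s) : ∃ M : ℝ, 0 ≤ M ∧
    ∀ (K : Type) [Field K] [Finite K] (R : Type) [CommRing R] (θ : R →+* K) (c : R)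
      (g : Polynomial R) (δ : K), ringChar K ≠ 2 → (s : K) ≠ 0 → θ c ≠ 0 →
      Squarefree (g.map θ) → s ≤ (g.map θ).natDegree + 1 → g.natDegree ≤ s →
      |(Nat.card {z : (Fin 3 → K) × K // z.1 ≠ 0 ∧
        z.2 ^ 2 = δ * MvPolynomial.eval₂ θ z.1 (planeForm s c g)} : ℝ) / ((Nat.card K : ℝ) - 1) -
          (Nat.card {x : Fin 3 → K // x ≠ 0} : ℝ) / ((Nat.card K : ℝ) - 1)| ≤
        M * Nat.card K := by
  obtain ⟨M, hM0, hM⟩ := total s hs
  refine ⟨M, hM0, ?_⟩
  intro K _ _ R _ θ c g δ hK hsK hc hg hd hd'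
  classical
  have := Fintype.ofFinite K
  rw [Nat.card_eq_fintype_card (α := K)]
  exact card_plane_bound hK θ (by omega) c g δ
    (hM K hK hsK (θ c) (g.map θ) hc hg hd ((Polynomial.natDegree_map_le).trans hd'))

/-- the number of points of the plane -/
lemma points_bound {q : ℝ} (hq : 1 < q) : |(q ^ 3 - 1) / (q - 1) - q ^ 2 - 1| ≤ 1 * q := by
  have h : (q ^ 3 - 1) / (q - 1) = q ^ 2 + q + 1 := by
    rw [div_eq_iff (by linarith)]
    ring
  have h2 : q ^ 2 + q + 1 - q ^ 2 - 1 = q := by ring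
  rw [h, h2, one_mul, abs_of_pos (by linarith)]

/-- **The hypothesis `Bounds` for the double planes.** -/
theorem bounds (s : ℕ) (hs : 2 ≤ s) : ∃ M : ℝ, 0 ≤ M ∧
    ∀ (R : Type) [CommRing R] (c : R) (g : Polynomial R), g.natDegree ≤ s →
      Pool.Agent.Helper29.UT.Bounds (goodPrimes s c g) (![] : Fin 0 → MvPolynomial (Fin 3) R)
        (planeForm s c g) M 1 := by
  obtain ⟨M, hM0, hM⟩ := cover_bound s hs
  refine ⟨M, hM0, ?_⟩
  intro R _ c g hg p hp φ hφ
  have : Fact p.Prime := ⟨hp⟩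
  obtain ⟨h1, h2, h3, h4⟩ := hφ
  have hp2 : p ≠ 2 := by
    rintro rfl
    exact h1 (dvd_mul_right _ _)
  have hchar : ringChar (ZMod p) ≠ 2 := by
    rw [ZMod.ringChar_zmod_n]
    exact hp2
  have hs0 : ((s : ℕ) : ZMod p) ≠ 0 := by
    rw [Ne, ZMod.natCast_eq_zero_iff]
    exact fun h => h1 (h.mul_left 2)
  have hK : Nat.card (ZMod p) = p := Nat.card_zmod p
  have hp1 : (1 : ℝ) < p := by exact_mod_cast hp.one_lt
  have e1 : Helper29.QT.points φ (![] : Fin 0 → MvPolynomial (Fin 3) R) =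
      (Nat.card {x : Fin 3 → ZMod p // x ≠ 0} : ℝ) / ((p : ℝ) - 1) := by
    rw [Helper29.QT.points]
    congr 2
    refine Nat.card_congr (Equiv.subtypeEquivRight fun x => ?_)
    simp
  have e2 : Helper29.QT.coverPoints φ (![] : Fin 0 → MvPolynomial (Fin 3) R) (planeForm s c g) 1 =
      (Nat.card {z : (Fin 3 → ZMod p) × ZMod p // z.1 ≠ 0 ∧
        z.2 ^ 2 = 1 * MvPolynomial.eval₂ φ z.1 (planeForm s c g)} : ℝ) / ((p : ℝ) - 1) := by
    rw [Helper29.QT.coverPoints]
    congr 2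
    refine Nat.card_congr (Equiv.subtypeEquivRight fun x => ?_)
    simp
  have h5 := hM (ZMod p) R φ c g 1 hchar hs0 h2 h3 h4 hg
  rw [hK] at h5
  refine ⟨?_, ?_⟩
  · rw [e1, e2]
    exact h5
  · rw [e1]
    have h6 := card_ne_zero (K := ZMod p) 3
    rw [ZMod.card] at h6
    have h7 : (Nat.card {x : Fin 3 → ZMod p // x ≠ 0} : ℝ) = (p : ℝ) ^ 3 - 1 := by
      exact_mod_cast h6
    rw [h7]
    exact points_bound hp1

end Pool.Agent.DPL
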