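import Mathlib

/-!
The lowest term in Stepanov's method for `y ^ d = f (x)`: nonvanishing.
-/

set_option autoImplicit false

namespace Pool.Agent.DPL

open Polynomial Finset

/-! ### The matrix of the multiplication by `∑ ρ_i Y ^ i` modulo `Y ^ d - e` -/

section Matrix

variable {R : Type} [CommRing R]

/-- the entries -/
def entry (e : R) (ρ : ℕ → R) (d k j : ℕ) : R := if k ≤ j then ρ (j - k) else e * ρ (j + d - k)

theorem sum_entry {L : Type} [CommRing L] (φ : R →+* L) (z : L) (e : R) (ρ : ℕ → R) (d k : ℕ)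
    (hk : k < d) (hz : z ^ d = φ e) :
    ∑ j ∈ range d, φ (entry e ρ d k j) * z ^ j = z ^ k * ∑ i ∈ range d, φ (ρ i) * z ^ i := by
  set G : ℕ → L := fun n => φ (ρ (n - k)) * z ^ n with hG
  have h1 : z ^ k * ∑ i ∈ range d, φ (ρ i) * z ^ i = ∑ n ∈ Ico k (k + d), G n := by
    rw [Finset.mul_sum, Finset.sum_Ico_eq_sum_range, Nat.add_sub_cancel_left]
    refine Finset.sum_congr rfl fun i _ => ?_
    simp only [hG]
    rw [Nat.add_sub_cancel_left, pow_add]
    ring
  have h2 : ∑ j ∈ range d, φ (entry e ρ d k j) * z ^ j =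
      ∑ j ∈ Ico 0 k, φ (entry e ρ d k j) * z ^ j + ∑ j ∈ Ico k d, φ (entry e ρ d k j) * z ^ j := by
    rw [Finset.range_eq_Ico, Finset.sum_Ico_consecutive _ (Nat.zero_le _) hk.le]
  have h3 : ∑ j ∈ Ico k d, φ (entry e ρ d k j) * z ^ j = ∑ j ∈ Ico k d, G j := by
    refine Finset.sum_congr rfl fun j hj => ?_
    rw [Finset.mem_Ico] at hj
    simp only [hG]
    rw [entry, if_pos hj.1]
  have h4 : ∑ j ∈ Ico 0 k, φ (entry e ρ d k j) * z ^ j = ∑ j ∈ Ico d (k + d), G j := by
    have h5 : ∑ j ∈ Ico d (k + d), G j = ∑ j ∈ Ico 0 k, G (j + d) := by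
      rw [Finset.sum_Ico_add' G 0 k d, zero_add]
    rw [h5]
    refine Finset.sum_congr rfl fun j hj => ?_
    rw [Finset.mem_Ico] at hj
    simp only [hG]
    rw [entry, if_neg (by omega), map_mul, ← hz, pow_add]
    ring
  rw [h2, h3, h4, h1, add_comm, Finset.sum_Ico_consecutive _ hk.le (by omega)]

/-- the matrix -/
def mat (e : R) (ρ : ℕ → R) (d : ℕ) : Matrix (Fin d) (Fin d) R :=
  Matrix.of fun k j => entry e ρ d k j

theorem sum_mat {L : Type} [CommRing L] (φ : R →+* L) (z : L) (e : R) (ρ : ℕ → R) (d : ℕ)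
    (k : Fin d) (hz : z ^ d = φ e) :
    ∑ j : Fin d, φ (mat e ρ d k j) * z ^ (j : ℕ) =
      z ^ (k : ℕ) * ∑ i ∈ range d, φ (ρ i) * z ^ i := by
  rw [← sum_entry φ z e ρ d k k.2 hz, Finset.sum_range]
  rfl

/-- the determinant is killed -/
theorem map_det_eq_zero {L : Type} [CommRing L] (φ : R →+* L) (z : L) (e : R) (ρ : ℕ → R) (d : ℕ)
    (hd : 0 < d) (hz : z ^ d = φ e) (hρ : ∑ i ∈ range d, φ (ρ i) * z ^ i = 0) :
    φ (mat e ρ d).det = 0 := by
  set A := (mat e ρ d).map φ with hA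
  have h1 : A.mulVec (fun j => z ^ (j : ℕ)) = 0 := by
    funext k
    have h := sum_mat φ z e ρ d k hz
    rw [hρ, mul_zero] at h
    exact h
  have h2 : (A.adjugate * A).mulVec (fun j => z ^ (j : ℕ)) = 0 := by
    rw [← Matrix.mulVec_mulVec, h1, Matrix.mulVec_zero]
  rw [Matrix.adjugate_mul, Matrix.smul_mulVec, Matrix.one_mulVec] at h2
  have h3 := congrFun h2 ⟨0, hd⟩
  have h4 : A.det = φ (mat e ρ d).det := by
    rw [hA, ← RingHom.mapMatrix_apply, ← RingHom.map_det]
  rw [← h4]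
  simpa using h3

/-- a relation between the rows gives a relation modulo `Y ^ d - e` -/
theorem mul_eq_sum {L : Type} [CommRing L] (φ : R →+* L) (z : L) (e : R) (ρ : ℕ → R) (d : ℕ)
    (hz : z ^ d = φ e) (v : Fin d → R) :
    (∑ k : Fin d, φ (v k) * z ^ (k : ℕ)) * ∑ i ∈ range d, φ (ρ i) * z ^ i =
      ∑ j : Fin d, φ ((Matrix.vecMul v (mat e ρ d)) j) * z ^ (j : ℕ) := by
  rw [Finset.sum_mul]
  have h3 : ∀ k : Fin d, φ (v k) * z ^ (k : ℕ) * ∑ i ∈ range d, φ (ρ i) * z ^ i =
      ∑ j : Fin d, φ (v k * mat e ρ d k j) * z ^ (j : ℕ) := by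
    intro k
    rw [mul_assoc, ← sum_mat φ z e ρ d k hz, Finset.mul_sum]
    exact Finset.sum_congr rfl fun j _ => by rw [map_mul, mul_assoc]
  rw [Finset.sum_congr rfl fun k _ => h3 k, Finset.sum_comm]
  refine Finset.sum_congr rfl fun j _ => ?_
  rw [← Finset.sum_mul, ← map_sum]
  rfl

theorem mul_eq_zero_of {L : Type} [CommRing L] (φ : R →+* L) (z : L) (e : R) (ρ : ℕ → R) (d : ℕ)
    (hz : z ^ d = φ e) (v : Fin d → R) (hv : Matrix.vecMul v (mat e ρ d) = 0) :
    (∑ k : Fin d, φ (v k) * z ^ (k : ℕ)) * ∑ i ∈ range d, φ (ρ i) * z ^ i = 0 := by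
  rw [mul_eq_sum φ z e ρ d hz v, hv]
  exact Finset.sum_eq_zero fun j _ => by rw [Pi.zero_apply, map_zero, zero_mul]

end Matrix

section det

variable {F : Type} [Field F]

theorem natDegree_det_le {n : ℕ} (A : Matrix (Fin n) (Fin n) F[X]) (b : ℕ)
    (hA : ∀ i j, (A i j).natDegree ≤ b) : A.det.natDegree ≤ n * b := by
  rw [Matrix.det_apply']
  refine natDegree_sum_le_of_forall_le _ _ fun σ _ => ?_
  refine natDegree_mul_le.trans ?_
  rw [natDegree_intCast, zero_add]
  refine (natDegree_prod_le _ _).trans ?_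
  refine (Finset.sum_le_card_nsmul _ _ b fun i _ => hA _ _).trans ?_
  rw [Finset.card_univ, Fintype.card_fin, smul_eq_mul]

end det

/-! ### The equation -/

section eqn

variable {F : Type} [Field F]

/-- `Y ^ d - e` is prime if `e` is a unit times a squarefree nonconstant polynomial -/
theorem prime_eqn (e : F[X]) (he : Squarefree e) (h1 : 1 ≤ e.natDegree) (d : ℕ) (hd : 0 < d) :
    Prime (X ^ d - C e : F[X][X]) := by
  have hu : ¬ IsUnit e := fun h => by
    rw [natDegree_eq_zero_of_isUnit h] at h1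
    omega
  have h0 : e ≠ 0 := he.ne_zero
  obtain ⟨π, hπ, hdvd⟩ := WfDvdMonoid.exists_irreducible_factor hu h0
  have hp : Prime π := hπ.prime
  have hP : (Ideal.span {π}).IsPrime := (Ideal.span_singleton_prime hp.ne_zero).2 hp
  have hmon : (X ^ d - C e : F[X][X]).Monic := monic_X_pow_sub_C e hd.ne'
  have hdeg : (X ^ d - C e : F[X][X]).natDegree = d := natDegree_X_pow_sub_C
  have hE : (X ^ d - C e : F[X][X]).IsEisensteinAt (Ideal.span {π}) := by
    refine ⟨?_, ?_, ?_⟩
    · rw [hmon.leadingCoeff]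
      exact fun h => hP.ne_top ((Ideal.eq_top_iff_one _).2 h)
    · intro n hn
      rw [hdeg] at hn
      rw [coeff_sub, coeff_X_pow, if_neg hn.ne, zero_sub, neg_mem_iff, coeff_C]
      split_ifs
      · exact Ideal.mem_span_singleton.2 hdvd
      · exact zero_mem _
    · rw [coeff_sub, coeff_X_pow, if_neg hd.ne, zero_sub, neg_mem_iff, coeff_C_zero,
        Ideal.span_singleton_pow, Ideal.mem_span_singleton]
      intro h
      rw [sq] at h
      exact hp.not_isUnit (he π h)
  exact (hE.irreducible hP hmon.isPrimitive (by rw [hdeg]; exact hd)).prime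

/-- a relation of small degree modulo a power of `X` is trivial -/
theorem relation_trivial (e : F[X]) (he : Squarefree e) (h1 : 1 ≤ e.natDegree) (m : ℕ)
    (hm : e.natDegree ≤ m) (d q D : ℕ) (hd : 0 < d) (hD0 : 0 < D) (hD : d * (D + m) ≤ q)
    (ρ : ℕ → F[X]) (hρ : ∀ i < d, (ρ i).natDegree ≤ D - 1) (Z : F[X])
    (hZ : X ^ q ∣ Z ^ d - e) (hdvd : X ^ q ∣ ∑ i ∈ range d, ρ i * Z ^ i) :
    ∀ i < d, ρ i = 0 := by
  classical
  -- the determinant vanishes
  have hdet : (mat e ρ d).det = 0 := by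
    have h2 : X ^ q ∣ (mat e ρ d).det := by
      rw [← Ideal.mem_span_singleton, ← Ideal.Quotient.eq_zero_iff_mem]
      refine map_det_eq_zero (Ideal.Quotient.mk (Ideal.span {(X : F[X]) ^ q}))
        (Ideal.Quotient.mk _ Z) e ρ d hd ?_ ?_
      · rw [← map_pow, ← sub_eq_zero, ← map_sub, Ideal.Quotient.eq_zero_iff_mem,
          Ideal.mem_span_singleton]
        exact hZ
      · have h3 : ∑ i ∈ range d, Ideal.Quotient.mk (Ideal.span {(X : F[X]) ^ q}) (ρ i) *
            Ideal.Quotient.mk (Ideal.span {(X : F[X]) ^ q}) Z ^ i =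
            Ideal.Quotient.mk (Ideal.span {(X : F[X]) ^ q}) (∑ i ∈ range d, ρ i * Z ^ i) := by
          rw [map_sum]
          exact Finset.sum_congr rfl fun i _ => by rw [map_mul, map_pow]
        rw [h3, Ideal.Quotient.eq_zero_iff_mem, Ideal.mem_span_singleton]
        exact hdvd
    refine eq_zero_of_dvd_of_natDegree_lt h2 ?_
    rw [natDegree_X_pow]
    have h3 : (mat e ρ d).det.natDegree ≤ d * (D - 1 + m) := by
      refine natDegree_det_le _ _ fun k j => ?_
      show (entry e ρ d k j).natDegree ≤ _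
      rw [entry]
      split_ifs with h
      · exact (hρ _ (by have := j.2; omega)).trans (by omega)
      · refine natDegree_mul_le.trans ?_
        have h4 := hρ ((j : ℕ) + d - k) (by have := j.2; have := k.2; omega)
        omega
    have h4 : d * (D - 1 + m) < d * (D + m) := by
      refine Nat.mul_lt_mul_of_pos_left ?_ hd
      omega
    omega
  -- a relation between the rows
  obtain ⟨v, hv, hvA⟩ := Matrix.exists_vecMul_eq_zero_iff.2 hdet
  set E : F[X][X] := X ^ d - C e with hE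
  have hp : Prime E := prime_eqn e he h1 d hd
  have hdegE : E.degree = d := degree_X_pow_sub_C hd e
  let V : F[X][X] := ∑ k : Fin d, C (v k) * X ^ (k : ℕ)
  let P : F[X][X] := ∑ i : Fin d, C (ρ i) * X ^ (i : ℕ)
  have hVP : E ∣ V * P := by
    rw [← Ideal.mem_span_singleton, ← Ideal.Quotient.eq_zero_iff_mem]
    set κ := Ideal.Quotient.mk (Ideal.span {E}) with hκ
    set z := κ X with hz
    have hzd : z ^ d = (κ.comp C) e := by
      rw [RingHom.comp_apply, hz, ← map_pow, ← sub_eq_zero, ← map_sub, hκ,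
        Ideal.Quotient.eq_zero_iff_mem, Ideal.mem_span_singleton]
    have hP : κ P = ∑ i ∈ range d, (κ.comp C) (ρ i) * z ^ i := by
      rw [Finset.sum_range, map_sum]
      exact Finset.sum_congr rfl fun i _ => by rw [map_mul, map_pow]; rfl
    have hV : κ V = ∑ k : Fin d, (κ.comp C) (v k) * z ^ (k : ℕ) := by
      rw [map_sum]
      exact Finset.sum_congr rfl fun i _ => by rw [map_mul, map_pow]; rfl
    have h2 := mul_eq_zero_of (κ.comp C) z e ρ d hzd v hvA
    rw [← hP, ← hV] at h2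
    rw [map_mul]
    exact h2
  have hcoeff : ∀ (w : Fin d → F[X]), E ∣ ∑ k : Fin d, C (w k) * X ^ (k : ℕ) → ∀ k, w k = 0 := by
    intro w hw k
    have h2 : ∑ k : Fin d, C (w k) * X ^ (k : ℕ) = (0 : F[X][X]) := by
      refine eq_zero_of_dvd_of_degree_lt hw ?_
      rw [hdegE]
      exact degree_sum_fin_lt w
    have h3 := congrArg (fun p : F[X][X] => p.coeff (k : ℕ)) h2
    simp only [finsetSum_coeff, coeff_C_mul, coeff_X_pow, coeff_zero] at h3
    rw [Finset.sum_eq_single k] at h3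
    · simpa using h3
    · intro j _ hj
      rw [if_neg (fun h => hj (Fin.ext h.symm)), mul_zero]
    · intro h
      exact absurd (Finset.mem_univ _) h
  rcases hp.dvd_or_dvd hVP with h | h
  · exact absurd (funext (hcoeff v h)) hv
  · intro i hi
    exact hcoeff (fun i => ρ i) h ⟨i, hi⟩

end eqn

/-- R1: nonvanishing of the lowest term. -/
theorem lowest_gen {F : Type} [Field F] [Fintype F] (f : F[X]) (hf : Squarefree f)
    (h1 : 1 ≤ f.natDegree) (h0 : f.coeff 0 ≠ 0) (m : ℕ) (hm : f.natDegree ≤ m) (d h D : ℕ)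
    (hd : 0 < d) (hq : Fintype.card F = d * h + 1) (hD : d * (D + m) ≤ Fintype.card F)
    (r : ℕ → F[X]) (hr : ∀ i < d, r i ∈ degreeLT F D)
    (hdvd : X ^ Fintype.card F ∣ ∑ i ∈ range d, r i * f ^ (i * h)) : ∀ i < d, r i = 0 := by
  classical
  rcases Nat.eq_zero_or_pos D with hD0 | hD0
  · intro i hi
    have h2 := hr i hi
    rw [hD0, mem_degreeLT, Nat.cast_zero] at h2
    exact degree_eq_bot.1 (by simpa using h2)
  set q := Fintype.card F with hqdef
  have hq0 : 0 < q := Fintype.card_pos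
  set c := f.coeff 0 with hc
  have hcc : (C c⁻¹ : F[X]) * C c = 1 := by rw [← C_mul, inv_mul_cancel₀ h0, C_1]
  -- `f ^ q` modulo `X ^ q`
  have hfq : X ^ q ∣ f ^ q - C c := by
    rw [← FiniteField.expand_card f, X_pow_dvd_iff]
    intro n hn
    rw [coeff_sub, coeff_expand hq0, coeff_C]
    by_cases hn0 : n = 0
    · subst hn0
      rw [if_pos (dvd_zero _), if_pos rfl, Nat.zero_div, sub_self]
    · rw [if_neg hn0, if_neg fun h => hn0 (Nat.eq_zero_of_dvd_of_lt h hn), sub_zero]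
  set g := f ^ h with hg
  have hfg : f * g ^ d = f ^ q := by
    rw [hg, ← pow_mul, hq, mul_comm d h, pow_succ']
  clear_value g
  obtain ⟨Z, hZdef⟩ : ∃ Z : F[X], Z = C c⁻¹ * f * g ^ (d - 1) := ⟨_, rfl⟩
  set κ := Ideal.Quotient.mk (Ideal.span {(X : F[X]) ^ q}) with hκ
  have hκ0 : ∀ p : F[X], κ p = 0 ↔ X ^ q ∣ p := fun p => by
    rw [hκ, Ideal.Quotient.eq_zero_iff_mem, Ideal.mem_span_singleton]
  have hκf : κ (f * g ^ d) = κ (C c) := by
    rw [hfg, ← sub_eq_zero, ← map_sub, hκ0]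
    exact hfq
  have hZg : κ Z * κ g = 1 := by
    have h2 : Z * g = C c⁻¹ * (f * g ^ d) := by
      rw [hZdef]
      have h3 : g ^ d = g ^ (d - 1) * g := by rw [← pow_succ, Nat.sub_add_cancel hd]
      rw [h3]
      ring
    rw [← map_mul, h2, map_mul, hκf, ← map_mul, hcc, map_one]
  have hZd : κ Z ^ d = κ (C c⁻¹ * f) := by
    have h3 : κ (C c⁻¹) * (κ f * κ g ^ d) = 1 := by
      rw [← map_pow, ← map_mul, hκf, ← map_mul, hcc, map_one]
    have h4 : κ Z ^ d * κ g ^ d = 1 := by rw [← mul_pow, hZg, one_pow]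
    rw [map_mul]
    linear_combination (-(κ Z ^ d)) * h3 + (κ (C c⁻¹) * κ f) * h4
  have hu : IsUnit (C c⁻¹ : F[X]) := IsUnit.of_mul_eq_one _ hcc
  have hsq : Squarefree (C c⁻¹ * f) := by
    refine hf.squarefree_of_dvd ?_
    have h2 : C c⁻¹ * f ∣ C c * (C c⁻¹ * f) := dvd_mul_left _ _
    have h3 : C c * (C c⁻¹ * f) = f := by
      rw [← mul_assoc, mul_comm (C c), hcc, one_mul]
    rwa [h3] at h2
  have hdeg : (C c⁻¹ * f).natDegree = f.natDegree :=
    natDegree_C_mul (inv_ne_zero h0)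
  have key := relation_trivial (C c⁻¹ * f) hsq (by rw [hdeg]; exact h1) m (by rw [hdeg]; exact hm)
    d q D hd hD0 hD (fun i => r (d - 1 - i)) (fun i hi => by
      have h2 := hr (d - 1 - i) (by omega)
      rw [mem_degreeLT] at h2
      rcases eq_or_ne (r (d - 1 - i)) 0 with h3 | h3
      · rw [h3, natDegree_zero]
        exact Nat.zero_le _
      · have h4 := (natDegree_lt_iff_degree_lt h3).2 h2
        omega) Z (by
      rw [← hκ0, map_sub, map_pow, hZd, sub_self]) (by
      rw [← hκ0, map_sum]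
      have h2 := (hκ0 _).2 hdvd
      rw [map_sum] at h2
      have h3 : κ Z ^ (d - 1) * ∑ i ∈ range d, κ (r i * f ^ (i * h)) = 0 := by
        rw [h2, mul_zero]
      rw [← Finset.sum_range_reflect, ← h3, Finset.mul_sum]
      refine Finset.sum_congr rfl fun i hi => ?_
      rw [Finset.mem_range] at hi
      have h4 : d - 1 - (d - 1 - i) = i := by omega
      have h5 : f ^ (i * h) = g ^ i := by rw [hg, ← pow_mul, mul_comm]
      have h6 : κ Z ^ (d - 1) = κ Z ^ (d - 1 - i) * κ Z ^ i := by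
        rw [← pow_add]
        congr 1
        omega
      have h7 : κ Z ^ i * κ g ^ i = 1 := by rw [← mul_pow, hZg, one_pow]
      rw [h4, h5, h6, map_mul, map_mul, map_pow, map_pow]
      linear_combination (-(κ (r i)) * κ Z ^ (d - 1 - i)) * h7)
  intro i hi
  have h2 := key (d - 1 - i) (by omega)
  have h4 : d - 1 - (d - 1 - i) = i := by omega
  simp only [h4] at h2
  exact h2

end Pool.Agent.DPL
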