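import Mathlib

/-!
The linear algebra of Stepanov's method for `y ^ d = f (x)`: a nonzero solution of the linear conditions.
-/

set_option autoImplicit false

namespace Pool.Agent.DPL

open Polynomial Finset

/-- A nonzero solution of the linear conditions, with `d` blocks. -/
theorem exists_solution_gen {F : Type*} [Field F] (a : F) (D J d l n : ℕ)
    (B : ℕ → ℕ → F[X] →ₗ[F] F[X]) (hcount : l * n < d * (J * D)) :
    ∃ r : ℕ → ℕ → F[X], (∀ j i, r j i ∈ degreeLT F D) ∧ (∃ j < J, ∃ i < d, r j i ≠ 0) ∧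
      ∀ k < l, ∀ e < n,
        (∑ j ∈ range J, X ^ j * ∑ i ∈ range d, C (a ^ i) * B i k (r j i)).coeff e = 0 := by
  let L : (Fin J × Fin d → degreeLT F D) →ₗ[F] (Fin l × Fin n → F) :=
    LinearMap.pi fun ke => (lcoeff F (ke.2 : ℕ)).comp
      (∑ ji : Fin J × Fin d, (LinearMap.mulLeft F (X ^ (ji.1 : ℕ) * C (a ^ (ji.2 : ℕ)))).comp
        ((B ji.2 ke.1).comp ((degreeLT F D).subtype.comp (LinearMap.proj ji))))
  have hL : ∀ v ke, L v ke = (∑ j : Fin J, X ^ (j : ℕ) * ∑ i : Fin d, C (a ^ (i : ℕ)) *
      B i ke.1 (v (j, i) : F[X])).coeff ke.2 := by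
    intro v ke
    simp only [L, LinearMap.pi_apply, LinearMap.comp_apply, LinearMap.sum_apply,
      LinearMap.mulLeft_apply, LinearMap.proj_apply, Submodule.subtype_apply, lcoeff_apply]
    congr 1
    rw [Fintype.sum_prod_type]
    refine Finset.sum_congr rfl fun j _ => ?_
    rw [Finset.mul_sum]
    exact Finset.sum_congr rfl fun i _ => mul_assoc _ _ _
  have hfin : Module.finrank F (degreeLT F D) = D := by
    rw [Module.finrank_eq_card_basis (degreeLT.basis F D), Fintype.card_fin]
  have hfr : Module.finrank F (Fin l × Fin n → F) <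
      Module.finrank F (Fin J × Fin d → degreeLT F D) := by
    have h1 : Module.finrank F (Fin J × Fin d → degreeLT F D) = J * d * D := by
      rw [Module.finrank_pi_fintype]
      simp only [hfin, Finset.sum_const, Finset.card_univ, Fintype.card_prod, Fintype.card_fin,
        smul_eq_mul]
    have h2 : Module.finrank F (Fin l × Fin n → F) = l * n := by
      rw [Module.finrank_pi, Fintype.card_prod, Fintype.card_fin, Fintype.card_fin]
    rw [h1, h2]
    calc l * n < d * (J * D) := hcount
      _ = J * d * D := by ring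
  obtain ⟨v, hv, hv0⟩ := Submodule.exists_mem_ne_zero_of_ne_bot (L.ker_ne_bot_of_finrank_lt hfr)
  rw [LinearMap.mem_ker] at hv
  refine ⟨fun j i => if h : j < J ∧ i < d then (v (⟨j, h.1⟩, ⟨i, h.2⟩) : F[X]) else 0,
    ?_, ?_, ?_⟩
  · intro j i
    dsimp only
    split_ifs with h
    · exact (v _).2
    · exact Submodule.zero_mem _
  · by_contra hcon
    push Not at hcon
    apply hv0
    funext ji
    have := hcon ji.1 ji.1.2 ji.2 ji.2.2
    rw [dif_pos ⟨ji.1.2, ji.2.2⟩] at this
    exact Subtype.ext this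
  · intro k hk e he
    have h1 := congrFun hv (⟨k, hk⟩, ⟨e, he⟩)
    rw [hL] at h1
    rw [Finset.sum_range]
    simp only [Finset.sum_range (n := d), Fin.is_lt, and_self, dite_true, Fin.eta]
    exact h1

/-- A sum of terms `X ^ j * ∑ C c * q` of bounded degree is zero if its low coefficients are. -/
theorem eq_zero_of_coeff {F : Type*} [Field F] (J d n M : ℕ) (c : ℕ → F) (q : ℕ → ℕ → F[X])
    (hq : ∀ j < J, ∀ i < d, (q j i).natDegree ≤ M) (hn : J + M ≤ n)
    (h : ∀ e < n, (∑ j ∈ range J, X ^ j * ∑ i ∈ range d, C (c i) * q j i).coeff e = 0) :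
    ∑ j ∈ range J, X ^ j * ∑ i ∈ range d, C (c i) * q j i = 0 := by
  rcases Nat.eq_zero_or_pos J with rfl | hJ
  · simp
  have hdeg : (∑ j ∈ range J, X ^ j * ∑ i ∈ range d, C (c i) * q j i).natDegree < n := by
    refine lt_of_le_of_lt (natDegree_sum_le_of_forall_le (n := (J - 1) + M) _ _ fun j hj => ?_)
      (by omega)
    rw [mem_range] at hj
    refine natDegree_mul_le.trans ?_
    rw [natDegree_X_pow]
    refine Nat.add_le_add (by omega) ?_
    refine natDegree_sum_le_of_forall_le _ _ fun i hi => ?_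
    rw [mem_range] at hi
    refine natDegree_mul_le.trans ?_
    rw [natDegree_C, zero_add]
    exact hq j hj i hi
  ext e
  rw [coeff_zero]
  by_cases he : e < n
  · exact h e he
  · exact coeff_eq_zero_of_natDegree_lt (by omega)

end Pool.Agent.DPL
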