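import Pool.Agent.LRP.Stepanov
import Pool.Agent.DPL.Lowest
import Pool.Agent.DPL.Solve

/-!
Stepanov's method for `y ^ d = f (x)`: the number of points where a power of `f` has a given value.
-/

set_option autoImplicit false

namespace Pool.Agent.DPL

open Polynomial Finset
open Pool.Agent.LRP (natDegree_lt_of_mem exists_quot dvd_of_hasse dvd_X_pow_sub)

section

variable {F : Type} [Field F]

theorem exists_quot_all (f : F[X]) (hf : f ≠ 0) (h l : ℕ) (hl : l ≤ h + 1) (i : ℕ) :
    ∃ B : ℕ → F[X] →ₗ[F] F[X], ∀ k < l, ∀ s : F[X],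
      f ^ k * hasseDeriv k (s * f ^ (i * h)) = f ^ (i * h) * B k s ∧
      (B k s).natDegree ≤ k * f.natDegree + s.natDegree := by
  rcases Nat.eq_zero_or_pos i with h0 | h0
  · subst h0
    refine ⟨fun k => (LinearMap.mulLeft F (f ^ k)).comp (hasseDeriv k), fun k _ s => ⟨?_, ?_⟩⟩
    · simp
    · rw [LinearMap.comp_apply, LinearMap.mulLeft_apply]
      exact natDegree_mul_le.trans (Nat.add_le_add natDegree_pow_le
        ((natDegree_hasseDeriv_le s k).trans (Nat.sub_le _ _)))
  · refine exists_quot f hf (i * h) l ?_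
    have : h ≤ i * h := Nat.le_mul_of_pos_left h h0
    omega

theorem arith_count {q m d l J D : ℕ} (hd : 0 < d) (hl1 : l * l ≤ q)
    (hbig : 4 * (d * (m + 2)) ≤ l) (hdJ1 : l + d * m + 2 * d + 1 ≤ d * J)
    (hdJ2 : d * J ≤ l + d * m + 3 * d) (hE : q ≤ d * D + d * m + d) :
    l * (J + l * m + D) < d * (J * D) := by
  have hlq : 4 * (d * (m + 2)) * l ≤ q := le_trans (Nat.mul_le_mul_right l hbig) hl1
  have e0 : d * (l * (J + l * m + D)) < d * (d * (J * D)) := by
    have e1 : d * (l * (J + l * m + D)) = l * (d * J) + d * m * (l * l) + l * (d * D) := by ring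
    have e2 : d * (d * (J * D)) = (d * J) * (d * D) := by ring
    rw [e1, e2]
    have e3 : (l + d * m + 2 * d + 1) * (d * D) ≤ (d * J) * (d * D) :=
      Nat.mul_le_mul_right _ hdJ1
    have e4 : l * (d * J) ≤ l * (l + d * m + 3 * d) := Nat.mul_le_mul_left _ hdJ2
    have e5 : d * m * (l * l) ≤ d * m * q := Nat.mul_le_mul_left _ hl1
    have e6 : (d * m + 2 * d + 1) * q ≤ (d * m + 2 * d + 1) * (d * D + d * m + d) :=
      Nat.mul_le_mul_left _ hE
    -- the remaining inequality
    have e7 : l * (d * m + 3 * d) + (d * m + 2 * d + 1) * (d * m + d) < 2 * (d * q) := by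
      have f1 : l * (d * m + 3 * d) ≤ d * q := by
        have g0 : m + 3 ≤ 4 * (d * (m + 2)) := by
          have : m + 2 ≤ d * (m + 2) := Nat.le_mul_of_pos_left _ hd
          omega
        calc l * (d * m + 3 * d) = d * ((m + 3) * l) := by ring
          _ ≤ d * (4 * (d * (m + 2)) * l) :=
              Nat.mul_le_mul_left _ (Nat.mul_le_mul_right _ g0)
          _ ≤ d * q := Nat.mul_le_mul_left _ hlq
      have f2 : (d * m + 2 * d + 1) * (d * m + d) < d * q := by
        have g1 : (4 * (d * (m + 2))) * (4 * (d * (m + 2))) ≤ q :=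
          le_trans (Nat.mul_le_mul hbig hbig) hl1
        have g2 : (d * m + 2 * d + 1) * (m + 1) < q := by
          refine lt_of_lt_of_le ?_ g1
          have g3 : d * m + 2 * d + 1 ≤ 2 * (d * (m + 2)) := by
            have : d * (m + 2) = d * m + 2 * d := by ring
            omega
          have g4 : m + 1 < 4 * (d * (m + 2)) := by
            have : m + 2 ≤ d * (m + 2) := Nat.le_mul_of_pos_left _ hd
            omega
          calc (d * m + 2 * d + 1) * (m + 1) < (d * m + 2 * d + 1) * (4 * (d * (m + 2))) :=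
                Nat.mul_lt_mul_of_pos_left g4 (by omega)
            _ ≤ 2 * (d * (m + 2)) * (4 * (d * (m + 2))) := Nat.mul_le_mul_right _ g3
            _ ≤ _ := Nat.mul_le_mul_right _ (by omega)
        calc (d * m + 2 * d + 1) * (d * m + d) = d * ((d * m + 2 * d + 1) * (m + 1)) := by ring
          _ < d * q := Nat.mul_lt_mul_of_pos_left g2 hd
      omega
    have i1 : (l + d * m + 2 * d + 1) * (d * D) =
        l * (d * D) + (d * m + 2 * d + 1) * (d * D) := by ring
    have i2 : (d * m + 2 * d + 1) * (d * D + d * m + d) =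
        (d * m + 2 * d + 1) * (d * D) + (d * m + 2 * d + 1) * (d * m + d) := by ring
    have i3 : l * (l + d * m + 3 * d) = l * l + l * (d * m + 3 * d) := by ring
    have i4 : (d * m + 2 * d + 1) * q = d * m * q + 2 * (d * q) + q := by ring
    omega
  exact Nat.lt_of_mul_lt_mul_left e0

set_option maxHeartbeats 4000000 in
/-- Counting the points where the power of `f` has a given value. -/
theorem count_core [Fintype F] (f : F[X]) (hf : Squarefree f) (h1 : 1 ≤ f.natDegree)
    (h00 : f.coeff 0 ≠ 0) (m : ℕ) (hm : f.natDegree ≤ m) (d : ℕ) (hd : 0 < d) (h : ℕ)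
    (hq : Fintype.card F = d * h + 1) (a : F) (l : ℕ)
    (hl1 : l * l ≤ Fintype.card F) (hbig : 4 * (d * (m + 2)) ≤ l)
    (S : Finset F) (hS : ∀ x ∈ S, eval x f ≠ 0 ∧ (eval x f) ^ h = a) :
    d * (l * S.card) ≤ Fintype.card F * l + Fintype.card F * (2 * d * m + 2 * d + 1) := by
  classical
  set q := Fintype.card F with hqdef
  set D := q / d - m with hD
  set J := l / d + m + 3 with hJ
  set n := J + l * m + D with hn
  have hdm : 1 ≤ d * (m + 2) := Nat.mul_pos hd (by omega)
  have hdd : d ≤ d * (m + 2) := Nat.le_mul_of_pos_right d (by omega)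
  have hlq : 4 * (d * (m + 2)) * l ≤ q := le_trans (Nat.mul_le_mul_right l hbig) hl1
  have hql : l ≤ q := le_trans (Nat.le_mul_of_pos_left l (by omega)) hlq
  have hqd1 : d * (q / d) ≤ q := Nat.mul_div_le q d
  have hqd2 : q < d * (q / d) + d := by
    have := Nat.lt_mul_div_succ q hd
    rw [mul_add, mul_one] at this
    exact this
  have hbig2 : d * (4 * (m + 2) * l) ≤ q := by
    calc d * (4 * (m + 2) * l) = 4 * (d * (m + 2)) * l := by ring
      _ ≤ q := hlq
  have hl0 : 0 < l := by omega
  have hqd3 : 4 * (m + 2) * l ≤ q / d := by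
    rw [Nat.le_div_iff_mul_le hd, mul_comm]; exact hbig2
  have hml : m + 1 ≤ q / d := by
    refine le_trans ?_ hqd3
    nlinarith
  have hDm : D + m = q / d := by omega
  have hD0 : 0 < D := by omega
  have hE1 : d * D + d * m = d * (q / d) := by rw [← mul_add, hDm]
  have hDq : d * (D + m) ≤ q := by rw [hDm]; exact hqd1
  have hlh : l ≤ h + 1 := by
    by_contra hcon
    have hh : h + 2 ≤ l := by omega
    have e1 : d * (h + 2) ≤ d * l := Nat.mul_le_mul_left d hh
    have e2 : d * l * 4 ≤ d * (4 * (m + 2) * l) := by nlinarith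
    nlinarith
  have hld1 : d * (l / d) ≤ l := Nat.mul_div_le l d
  have hld2 : l < d * (l / d) + d := by
    have := Nat.lt_mul_div_succ l hd
    rw [mul_add, mul_one] at this
    exact this
  have hdJ : d * J = d * (l / d) + d * m + 3 * d := by rw [hJ]; ring
  have hdJ1 : l + d * m + 2 * d + 1 ≤ d * J := by omega
  have hdJ2 : d * J ≤ l + d * m + 3 * d := by omega
  have hcount : l * n < d * (J * D) := by
    rw [hn]
    exact arith_count hd hl1 hbig hdJ1 hdJ2 (by omega)
  choose B hB using exists_quot_all f hf.ne_zero h l hlh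
  obtain ⟨r, hr, hne, hZ⟩ := exists_solution_gen a D J d l n B hcount
  have hrd : ∀ j i, (r j i).natDegree < D := fun j i => natDegree_lt_of_mem hD0 (hr j i)
  -- the conditions hold as identities
  have hZ0 : ∀ k < l,
      ∑ j ∈ range J, X ^ j * ∑ i ∈ range d, C (a ^ i) * B i k (r j i) = 0 := by
    intro k hk
    have hkm : k * f.natDegree ≤ l * m := Nat.mul_le_mul hk.le hm
    have hdeg : (∑ j ∈ range J, X ^ j *
        ∑ i ∈ range d, C (a ^ i) * B i k (r j i)).natDegree < n := by
      refine lt_of_le_of_lt (natDegree_sum_le_of_forall_le (n := (J - 1) + (l * m + (D - 1)))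
        _ _ fun j hj => ?_) (by omega)
      rw [mem_range] at hj
      refine natDegree_mul_le.trans ?_
      rw [natDegree_X_pow]
      refine Nat.add_le_add (by omega) ?_
      refine natDegree_sum_le_of_forall_le _ _ fun i _ => ?_
      refine natDegree_mul_le.trans ?_
      rw [natDegree_C, zero_add]
      have g1 := (hB i k hk (r j i)).2
      have g3 := hrd j i
      omega
    ext e
    rw [coeff_zero]
    by_cases he : e < n
    · exact hZ k hk e he
    · exact coeff_eq_zero_of_natDegree_lt (by omega)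
  -- the auxiliary polynomial
  set G : ℕ → F[X] := fun j => ∑ i ∈ range d, r j i * f ^ (i * h) with hG
  set P := ∑ j ∈ range J, G j * X ^ (q * j) with hP
  have hP0 : P ≠ 0 := by
    intro hP0
    have hex : ∃ j, j < J ∧ ∃ i < d, r j i ≠ 0 := hne
    obtain ⟨hj1, i1, hi1, hj2⟩ := Nat.find_spec hex
    set j0 := Nat.find hex with hj0
    have hlow : ∀ j < j0, j < J → G j = 0 := by
      intro j hj hjJ
      have := Nat.find_min hex hj
      push Not at this
      rw [hG]
      refine Finset.sum_eq_zero fun i hi => ?_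
      rw [this hjJ i (mem_range.1 hi), zero_mul]
    have hd' : X ^ (q * j0) * X ^ q ∣ X ^ (q * j0) * G j0 := by
      have e1 : P = (∑ j ∈ (range J).erase j0, G j * X ^ (q * j)) + G j0 * X ^ (q * j0) :=
        (Finset.sum_erase_add _ _ (mem_range.2 hj1)).symm
      have e2 : X ^ (q * j0) * G j0 = -(∑ j ∈ (range J).erase j0, G j * X ^ (q * j)) := by
        rw [hP0] at e1
        rw [mul_comm]
        exact eq_neg_of_add_eq_zero_right e1.symm
      rw [e2, dvd_neg]
      refine Finset.dvd_sum fun j hj => ?_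
      rw [mem_erase, mem_range] at hj
      rcases lt_or_gt_of_ne hj.1 with hlt | hgt
      · rw [hlow j hlt hj.2, zero_mul]
        exact dvd_zero _
      · refine dvd_mul_of_dvd_right ?_ _
        rw [← pow_add]
        refine pow_dvd_pow _ ?_
        have : q * (j0 + 1) ≤ q * j := Nat.mul_le_mul_left _ hgt
        rw [mul_add, mul_one] at this
        exact this
    exact hj2 (lowest_gen f hf h1 h00 m hm d h D hd hq hDq (r j0) (fun i _ => hr j0 i)
      ((mul_dvd_mul_iff_left (pow_ne_zero _ X_ne_zero)).1 hd') i1 hi1)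
  have hdvd : ∀ x ∈ S, (X - C x) ^ l ∣ P := by
    intro x hx
    obtain ⟨hx0, hxa⟩ := hS x hx
    have e1 : P = ∑ j ∈ range J, G j * (X ^ (q * j) - C (x ^ j)) +
        ∑ j ∈ range J, C (x ^ j) * G j := by
      rw [hP, ← Finset.sum_add_distrib]
      refine Finset.sum_congr rfl fun j _ => ?_
      ring
    rw [e1]
    refine dvd_add (Finset.dvd_sum fun j _ =>
      dvd_mul_of_dvd_right (dvd_X_pow_sub x j l hql) _) ?_
    refine dvd_of_hasse _ _ _ fun k hk => ?_
    have hfk : (eval x f) ^ k ≠ 0 := pow_ne_zero _ hx0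
    apply mul_left_cancel₀ hfk
    rw [mul_zero, map_sum, eval_finsetSum, Finset.mul_sum]
    have e2 := congrArg (eval x) (hZ0 k hk)
    rw [eval_zero, eval_finsetSum] at e2
    rw [← e2]
    refine Finset.sum_congr rfl fun j _ => ?_
    rw [← smul_eq_C_mul, map_smul, smul_eq_C_mul, eval_mul, eval_C, eval_mul, eval_pow, eval_X,
      hG, map_sum, eval_finsetSum, eval_finsetSum, mul_left_comm, Finset.mul_sum]
    congr 1
    refine Finset.sum_congr rfl fun i _ => ?_
    have e3 := congrArg (eval x) (hB i k hk (r j i)).1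
    have hp : (eval x f) ^ (i * h) = a ^ i := by rw [mul_comm, pow_mul, hxa]
    rw [eval_mul, eval_mul, eval_pow, eval_pow, hp] at e3
    rw [eval_mul, eval_C]
    exact e3
  have hdeg : P.natDegree ≤ D + (d - 1) * (h * m) + q * (J - 1) := by
    refine natDegree_sum_le_of_forall_le _ _ fun j hj => ?_
    rw [mem_range] at hj
    refine natDegree_mul_le.trans ?_
    rw [natDegree_X_pow]
    refine Nat.add_le_add ?_ (Nat.mul_le_mul_left _ (by omega))
    refine natDegree_sum_le_of_forall_le _ _ fun i hi => ?_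
    rw [mem_range] at hi
    refine natDegree_mul_le.trans (Nat.add_le_add (hrd j i).le ?_)
    refine natDegree_pow_le.trans ?_
    calc i * h * f.natDegree ≤ i * h * m := Nat.mul_le_mul_left _ hm
      _ = i * (h * m) := by ring
      _ ≤ (d - 1) * (h * m) := Nat.mul_le_mul_right _ (by omega)
  have hcard : S.card * l ≤ P.natDegree := by
    have e1 : (∏ x ∈ S, (X - C x) ^ l) ∣ P := by
      refine Finset.prod_dvd_of_coprime ?_ hdvd
      intro x _ y _ hxy
      exact (pairwise_coprime_X_sub_C (Function.injective_id) hxy).pow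
    have e2 := natDegree_le_of_dvd e1 hP0
    rw [natDegree_prod_of_monic _ _ fun x _ => (monic_X_sub_C x).pow l] at e2
    simp only [natDegree_pow, natDegree_X_sub_C, mul_one, Finset.sum_const, smul_eq_mul] at e2
    exact e2
  have hJ3 : q * (J - 1) + q = q * J := by
    have : J - 1 + 1 = J := by omega
    rw [← Nat.mul_succ, Nat.succ_eq_add_one, this]
  have hfin : d * (S.card * l) ≤ d * D + (d - 1) * (d * h * m) + d * (q * (J - 1)) := by
    calc d * (S.card * l) ≤ d * (D + (d - 1) * (h * m) + q * (J - 1)) :=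
          Nat.mul_le_mul_left _ (hcard.trans hdeg)
      _ = _ := by ring
  have g1 : (d - 1) * (d * h * m) ≤ d * (q * m) := by
    refine Nat.mul_le_mul (Nat.sub_le _ _) (Nat.mul_le_mul_right _ ?_)
    omega
  have g2 : d * (q * (J - 1)) + d * q = q * (d * J) := by
    rw [← mul_add, hJ3]; ring
  have g3 : q * (d * J) ≤ q * (l + d * m + 3 * d) := Nat.mul_le_mul_left _ hdJ2
  have g4 : d * D ≤ q := by omega
  have g5 : d * (l * S.card) = d * (S.card * l) := by ring
  have g6 : q * (l + d * m + 3 * d) = q * l + q * (d * m) + 3 * (d * q) := by ring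
  have g7 : d * (q * m) = q * (d * m) := by ring
  have g8 : q * (2 * d * m + 2 * d + 1) = 2 * (q * (d * m)) + 2 * (d * q) + q := by ring
  rw [g5, g8]
  omega

end

end Pool.Agent.DPL
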