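import Pool.Agent.DPL.Multi
import Pool.Agent.DPL.Bad
import Pool.Agent.Helper25.FM.Pow

/-!
# The family of the double planes `y ^ 2 = e z ^ s + g (x₀, x₁)`
-/

set_option autoImplicit false

namespace Pool.Agent.DPL

open Finset MvPolynomial
open Pool.Agent.Helper25.FM Pool.Agent.LRP

/-- The polynomial of the binary form with the coefficients `v 1`, …, `v (s + 1)`. -/
noncomputable def formOf {K : Type} [CommRing K] (s : ℕ) (v : Fin (s + 2) → K) : Polynomial K :=
  ∑ i : Fin (s + 1), Polynomial.C (v i.succ) * Polynomial.X ^ (i : ℕ)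

/-- The parameters over the field with `p` elements of the smooth double planes
`y ^ 2 = e z ^ s + g (x₀, x₁)`, where `e` is the first parameter and the others are the coefficients
of the binary form `g` of degree `s`: `p` does not divide `2 s`, `e` is not zero and the form `g` is
squarefree. -/
def goodFibres (s p : ℕ) : Set (Fin (s + 2) → ZMod p) :=
  {v | ¬ p ∣ 2 * s ∧ v 0 ≠ 0 ∧ Squarefree (formOf s v) ∧ s ≤ (formOf s v).natDegree + 1}

/-- The trace of Frobenius on the second cohomology group of the double plane with parameters `v`: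
the number of points minus `p ^ 2 + 1`. -/
noncomputable def fibreTrace (s p : ℕ) (v : Fin (s + 2) → ZMod p) : ℝ :=
  planeTrace (planeForm s (v 0) (formOf s v)) p (RingHom.id (ZMod p))

lemma natDegree_formOf {K : Type} [CommRing K] (s : ℕ) (v : Fin (s + 2) → K) :
    (formOf s v).natDegree ≤ s := by
  unfold formOf
  refine Polynomial.natDegree_sum_le_of_forall_le _ _ fun i _ => ?_
  refine (Polynomial.natDegree_C_mul_X_pow_le _ _).trans ?_
  omega

lemma goodFibres_iff {s p : ℕ} (v : Fin (s + 2) → ZMod p) : v ∈ goodFibres s p ↔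
    RingHom.id (ZMod p) ∈ goodPrimes s (v 0) (formOf s v) p := by
  unfold goodFibres goodPrimes
  simp only [Set.mem_ofPred_eq, Polynomial.map_id, RingHom.id_apply]

lemma formOf_smul {K : Type} [CommRing K] (s : ℕ) (v : Fin (s + 2) → K) (l : K) :
    formOf s (l • v) = Polynomial.C l * formOf s v := by
  unfold formOf
  rw [Finset.mul_sum]
  refine Finset.sum_congr rfl fun i _ => ?_
  rw [Pi.smul_apply, smul_eq_mul, Polynomial.C_mul, mul_assoc]

lemma planeForm_smul {K : Type} [CommRing K] (s : ℕ) (v : Fin (s + 2) → K) (l : K) :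
    planeForm s ((l • v) 0) (formOf s (l • v)) = C l * planeForm s (v 0) (formOf s v) := by
  rw [formOf_smul]
  unfold planeForm
  rw [Pi.smul_apply, smul_eq_mul, C_mul, mul_add, Finset.mul_sum, mul_assoc]
  congr 1
  refine Finset.sum_congr rfl fun i _ => ?_
  rw [Polynomial.coeff_C_mul, C_mul]
  ring

lemma smul_mem {s p : ℕ} [Fact p.Prime] (v : Fin (s + 2) → ZMod p) {l : ZMod p} (hl : l ≠ 0) :
    l • v ∈ goodFibres s p ↔ v ∈ goodFibres s p := by
  have key : ∀ (v : Fin (s + 2) → ZMod p) {l : ZMod p}, l ≠ 0 → v ∈ goodFibres s p →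
      l • v ∈ goodFibres s p := by
    intro v l hl hv
    obtain ⟨h1, h2, h3, h4⟩ := hv
    have hu : IsUnit (Polynomial.C l) := Polynomial.isUnit_C.2 (isUnit_iff_ne_zero.2 hl)
    refine ⟨h1, ?_, ?_, ?_⟩
    · rw [Pi.smul_apply, smul_eq_mul]
      exact mul_ne_zero hl h2
    · rw [formOf_smul]
      exact (associated_unit_mul_left _ _ hu).squarefree_iff.2 h3
    · rw [formOf_smul, Polynomial.natDegree_C_mul hl]
      exact h4
  refine ⟨fun h => ?_, key v hl⟩
  have h1 := key _ (inv_ne_zero hl) h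
  rwa [smul_smul, inv_mul_cancel₀ hl, one_smul] at h1

/-- The plus and the minus part of the trace. -/
lemma fibreTrace_smul {s p : ℕ} [Fact p.Prime] (hp : p ≠ 2) (v : Fin (s + 2) → ZMod p)
    (l : ZMod p) : fibreTrace s p (l • v) - p =
      (quadraticChar (ZMod p) l : ℝ) * (fibreTrace s p v - p) := by
  unfold fibreTrace planeTrace
  rw [planeForm_smul]
  have h1 := cover_delta (RingHom.id (ZMod p)) (RingHom.id (ZMod p))
    (![] : Fin 0 → MvPolynomial (Fin 3) (ZMod p)) (planeForm s (v 0) (formOf s v)) hp l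
  have h2 : (fun i => map (RingHom.id (ZMod p)) ((![] : Fin 0 → MvPolynomial (Fin 3) (ZMod p)) i)) =
      (![] : Fin 0 → MvPolynomial (Fin 3) (ZMod p)) := Subsingleton.elim _ _
  rw [h2, MvPolynomial.map_id, RingHom.comp_id, points_plane] at h1
  simp only [RingHom.id_apply] at h1
  linear_combination h1

/-- The mean of the traces of the good fibres is `p` times the proportion of the good fibres. -/
lemma mean_eq (s p : ℕ) [hp : Fact p.Prime] :
    mean (goodFibres s p) (fibreTrace s p) =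
      p * ((Nat.card (goodFibres s p) : ℝ) / (p : ℝ) ^ (s + 2)) := by
  classical
  by_cases hp2 : p = 2
  · have h0 : goodFibres s p = ∅ := by
      rw [Set.eq_empty_iff_forall_notMem]
      intro v hv
      exact hv.1 (by rw [hp2]; exact Nat.dvd_mul_right 2 s)
    rw [h0]
    unfold mean
    simp
  obtain ⟨l, hl⟩ := FiniteField.exists_nonsquare (F := ZMod p)
    (by rw [ZMod.ringChar_zmod_n]; exact hp2)
  have hl0 : l ≠ 0 := by
    rintro rfl
    exact hl IsSquare.zero
  have hχ : quadraticChar (ZMod p) l = -1 := quadraticChar_neg_one_iff_not_isSquare.2 hl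
  have h1 : ∑ v ∈ (univ : Finset (Fin (s + 2) → ZMod p)).filter (fun v => v ∈ goodFibres s p),
      (fibreTrace s p v - p) =
      -∑ v ∈ (univ : Finset (Fin (s + 2) → ZMod p)).filter (fun v => v ∈ goodFibres s p),
      (fibreTrace s p v - p) := by
    rw [← Finset.sum_neg_distrib]
    refine Finset.sum_bij' (fun v _ => l⁻¹ • v) (fun v _ => l • v) ?_ ?_ ?_ ?_ ?_
    · intro v hv
      rw [Finset.mem_filter] at hv ⊢
      exact ⟨mem_univ _, (smul_mem v (inv_ne_zero hl0)).2 hv.2⟩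
    · intro v hv
      rw [Finset.mem_filter] at hv ⊢
      exact ⟨mem_univ _, (smul_mem v hl0).2 hv.2⟩
    · intro v _
      rw [smul_smul, mul_inv_cancel₀ hl0, one_smul]
    · intro v _
      rw [smul_smul, inv_mul_cancel₀ hl0, one_smul]
    · intro v _
      have h2 := fibreTrace_smul hp2 (l⁻¹ • v) l
      rw [smul_smul, mul_inv_cancel₀ hl0, one_smul, hχ] at h2
      rw [h2]
      push_cast
      ring
  have h2 : ∑ v ∈ (univ : Finset (Fin (s + 2) → ZMod p)).filter (fun v => v ∈ goodFibres s p),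
      (fibreTrace s p v - p) = 0 := by linarith
  rw [Finset.sum_sub_distrib, Finset.sum_const, nsmul_eq_mul] at h2
  have h3 : ((univ : Finset (Fin (s + 2) → ZMod p)).filter (fun v => v ∈ goodFibres s p)).card =
      Nat.card (goodFibres s p) := by
    rw [Nat.card_eq_fintype_card, Fintype.card_subtype]
  unfold mean
  rw [finsum_eq_sum_of_fintype, ← Finset.sum_filter, sub_eq_zero.1 h2, h3]
  ring

/-- Almost all fibres are good. -/
lemma card_good (s : ℕ) (hs : 2 ≤ s) (p : ℕ) [hp : Fact p.Prime] (h : ¬ p ∣ 2 * s) :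
    p ^ (s + 2) ≤ Nat.card (goodFibres s p) + 4 * p ^ (s + 1) := by
  classical
  obtain ⟨G, hG⟩ : ∃ G, G = (univ : Finset (Fin (s + 2) → ZMod p)).filter
    (fun v => v ∈ goodFibres s p) := ⟨_, rfl⟩
  obtain ⟨Q, hQ⟩ : ∃ Q, Q = (univ : Finset (Fin (s + 1) → ZMod p)).filter
    (fun g => ¬ Squarefree (polyOf g)) := ⟨_, rfl⟩
  obtain ⟨L, hL⟩ : ∃ L, L = (univ : Finset (Fin (s + 1) → ZMod p)).filter
    (fun g => g (Fin.last s) = 0) := ⟨_, rfl⟩
  have hGc : Nat.card (goodFibres s p) = G.card := by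
    rw [Nat.card_eq_fintype_card, hG, Fintype.card_subtype]
  have hQc : Q.card ≤ 2 * p ^ s := by
    have h1 := card_not_squarefree (F := ZMod p) hs
    rw [Nat.card_eq_fintype_card, Fintype.card_subtype, ZMod.card] at h1
    rw [hQ]
    exact h1
  have hLc : L.card ≤ p ^ s := by
    have h1 : L ⊆ (univ : Finset (Fin s → ZMod p)).image
        (fun g => (Fin.snoc g (0 : ZMod p) : Fin (s + 1) → ZMod p)) := by
      intro g hg
      rw [hL, Finset.mem_filter] at hg
      refine Finset.mem_image.2 ⟨Fin.init g, mem_univ _, ?_⟩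
      have h2 := Fin.snoc_init_self g
      rw [hg.2] at h2
      exact h2
    refine (Finset.card_le_card h1).trans (Finset.card_image_le.trans (le_of_eq ?_))
    rw [Finset.card_univ, Fintype.card_fun, ZMod.card, Fintype.card_fin]
  have h1 : (univ : Finset (Fin (s + 2) → ZMod p)) ⊆ G ∪
      ((univ : Finset (Fin (s + 1) → ZMod p)).image
        (fun g => (Fin.cons (0 : ZMod p) g : Fin (s + 2) → ZMod p)) ∪
      (((univ : Finset (ZMod p)) ×ˢ Q).image
        (fun z => (Fin.cons z.1 z.2 : Fin (s + 2) → ZMod p)) ∪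
      ((univ : Finset (ZMod p)) ×ˢ L).image
        (fun z => (Fin.cons z.1 z.2 : Fin (s + 2) → ZMod p)))) := by
    intro v _
    have hv : (Fin.cons (v 0) (Fin.tail v) : Fin (s + 2) → ZMod p) = v := Fin.cons_self_tail v
    by_cases h2 : v ∈ G
    · exact Finset.mem_union_left _ h2
    refine Finset.mem_union_right _ ?_
    by_cases h3 : v 0 = 0
    · refine Finset.mem_union_left _ (Finset.mem_image.2 ⟨Fin.tail v, mem_univ _, ?_⟩)
      rw [← h3]
      exact hv
    refine Finset.mem_union_right _ ?_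
    by_cases h4 : ¬ Squarefree (polyOf (Fin.tail v))
    · refine Finset.mem_union_left _ (Finset.mem_image.2 ⟨(v 0, Fin.tail v), ?_, hv⟩)
      refine Finset.mem_product.2 ⟨mem_univ _, ?_⟩
      rw [hQ]
      exact Finset.mem_filter.2 ⟨mem_univ _, h4⟩
    refine Finset.mem_union_right _ (Finset.mem_image.2 ⟨(v 0, Fin.tail v), ?_, hv⟩)
    refine Finset.mem_product.2 ⟨mem_univ _, ?_⟩
    rw [hL]
    refine Finset.mem_filter.2 ⟨mem_univ _, ?_⟩
    by_contra h5
    apply h2
    rw [hG]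
    refine Finset.mem_filter.2 ⟨mem_univ _, h, h3, not_not.1 h4, ?_⟩
    have h6 : (polyOf (Fin.tail v)).coeff (Fin.last s : Fin (s + 1)) ≠ 0 := by
      rw [coeff_polyOf]
      exact h5
    have h7 := Polynomial.le_natDegree_of_ne_zero h6
    rw [Fin.val_last] at h7
    exact h7.trans (Nat.le_succ _)
  have h2 := Finset.card_le_card h1
  rw [Finset.card_univ, Fintype.card_fun, ZMod.card, Fintype.card_fin] at h2
  refine h2.trans ((Finset.card_union_le _ _).trans ?_)
  rw [hGc]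
  refine Nat.add_le_add_left ?_ _
  have h3 : ((univ : Finset (Fin (s + 1) → ZMod p)).image
        (fun g => (Fin.cons (0 : ZMod p) g : Fin (s + 2) → ZMod p))).card ≤ p ^ (s + 1) := by
    refine Finset.card_image_le.trans (le_of_eq ?_)
    rw [Finset.card_univ, Fintype.card_fun, ZMod.card, Fintype.card_fin]
  have h4 : (((univ : Finset (ZMod p)) ×ˢ Q).image
        (fun z => (Fin.cons z.1 z.2 : Fin (s + 2) → ZMod p))).card ≤ 2 * p ^ (s + 1) := by
    refine Finset.card_image_le.trans ?_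
    rw [Finset.card_product, Finset.card_univ, ZMod.card]
    refine (Nat.mul_le_mul_left p hQc).trans (le_of_eq ?_)
    ring
  have h5 : (((univ : Finset (ZMod p)) ×ˢ L).image
        (fun z => (Fin.cons z.1 z.2 : Fin (s + 2) → ZMod p))).card ≤ p ^ (s + 1) := by
    refine Finset.card_image_le.trans ?_
    rw [Finset.card_product, Finset.card_univ, ZMod.card]
    refine (Nat.mul_le_mul_left p hLc).trans (le_of_eq ?_)
    ring
  refine (Finset.card_union_le _ _).trans ?_
  refine (Nat.add_le_add h3 ((Finset.card_union_le _ _).trans (Nat.add_le_add h4 h5))).trans ?_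
  omega

/-- The mean of the traces of the good fibres is `p` up to a bounded error. -/
lemma mean_close (s : ℕ) (hs : 2 ≤ s) (p : ℕ) [hp : Fact p.Prime] (h : ¬ p ∣ 2 * s) :
    |mean (goodFibres s p) (fibreTrace s p) - p| ≤ 4 := by
  have hp0 : (0 : ℝ) < p := by exact_mod_cast hp.out.pos
  have h1 : (p : ℝ) ^ (s + 2) ≤ Nat.card (goodFibres s p) + 4 * (p : ℝ) ^ (s + 1) := by
    exact_mod_cast card_good s hs p h
  have h2 : (Nat.card (goodFibres s p) : ℝ) ≤ (p : ℝ) ^ (s + 2) := by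
    have h3 : Nat.card (goodFibres s p) ≤ Nat.card (Fin (s + 2) → ZMod p) :=
      Nat.card_le_card_of_injective _ Subtype.val_injective
    rw [Nat.card_fun, Nat.card_zmod, Nat.card_fin] at h3
    exact_mod_cast h3
  have hpow : (0 : ℝ) < (p : ℝ) ^ (s + 2) := by positivity
  have h3 : mean (goodFibres s p) (fibreTrace s p) - p =
      -(p * ((p : ℝ) ^ (s + 2) - Nat.card (goodFibres s p)) / (p : ℝ) ^ (s + 2)) := by
    rw [mean_eq]
    field_simp
    ring
  rw [h3, abs_neg, abs_of_nonneg (div_nonneg (mul_nonneg hp0.le (by linarith)) hpow.le),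
    div_le_iff₀ hpow]
  have h4 : (p : ℝ) ^ (s + 2) = p * (p : ℝ) ^ (s + 1) := by ring
  nlinarith

/-- The bound for the traces of the fibres. -/
theorem fibreTrace_le (s : ℕ) (hs : 2 ≤ s) : ∃ M : ℕ,
    ∀ p : ℕ, p.Prime → ∀ v ∈ goodFibres s p, |fibreTrace s p v| ≤ M * p := by
  obtain ⟨M, hM0, hM⟩ := bounds s hs
  refine ⟨⌈M⌉₊ + 1, fun p hp v hv => ?_⟩
  have hF : Fact p.Prime := ⟨hp⟩
  have hp0 : (0 : ℝ) ≤ p := Nat.cast_nonneg p
  have h1 := (hM (ZMod p) (v 0) (formOf s v) (natDegree_formOf s v) p hp (RingHom.id (ZMod p))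
    ((goodFibres_iff v).1 hv)).1
  rw [points_plane] at h1
  have h2 : fibreTrace s p v = Helper29.QT.coverPoints (RingHom.id (ZMod p))
      (![] : Fin 0 → MvPolynomial (Fin 3) (ZMod p)) (planeForm s (v 0) (formOf s v)) 1 -
      ((p : ℝ) ^ 2 + p + 1) + p := by
    unfold fibreTrace planeTrace
    ring
  rw [h2]
  refine (abs_add_le _ _).trans ?_
  rw [abs_of_nonneg hp0]
  push_cast
  have h3 : M * p ≤ ⌈M⌉₊ * p := mul_le_mul_of_nonneg_right (Nat.le_ceil M) hp0
  linarith

/-- The family of the double planes. -/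
theorem family (d s : ℕ) (hs : 2 ≤ s) :
    ∃ C : ℝ → ℝ → ℝ, ∀ {R : Type} [CommRing R] (b : Module.Basis (Fin d) ℤ R)
      (w : ∀ p : ℕ, (R →+* ZMod p) → ℝ) (_ : ∀ p φ, |w p φ| ≤ 1)
      (κ δ : ℝ) (B : ℕ), 0 ≤ κ → 0 < δ → 2 * κ + δ < 1 →
        share (s + 2) d B (fun a => ∃ T : ℕ, Real.log (height a) ^ (1 / (1 - 2 * κ - δ)) ≤ T ∧
          (T : ℝ) ≤ (height a : ℝ) ^ ((1 - δ) / (1 + 2 * κ)) ∧
          (T : ℝ) ^ (-κ) < dist b w (fun p _ => goodFibres s p) (fun p _ => fibreTrace s p) T a) ≤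
          C κ δ * (B : ℝ) ^ (-(δ ^ 2 / 60)) := by
  obtain ⟨M, hM⟩ := fibreTrace_le s hs
  have h4 : ∀ κ δ : ℝ, ∃ C' : ℝ, 0 ≤ κ → 0 < δ → 2 * κ + δ < 1 →
      ∀ {R : Type} [CommRing R] (b : Module.Basis (Fin d) ℤ R)
      {w : ∀ p : ℕ, (R →+* ZMod p) → ℝ} (_ : ∀ p φ, |w p φ| ≤ 1)
      {P : ∀ p : ℕ, (R →+* ZMod p) → Set (Fin (s + 2) → ZMod p)}
      {β : ∀ p : ℕ, (R →+* ZMod p) → (Fin (s + 2) → ZMod p) → ℝ}
      (_ : ∀ (p : ℕ) (_ : p.Prime) (φ : R →+* ZMod p), ∀ v ∈ P p φ, |β p φ v| ≤ M * p) (B : ℕ),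
      share (s + 2) d B (fun a => ∃ T : ℕ, Real.log (height a) ^ (1 / (1 - 2 * κ - δ)) ≤ T ∧
        (T : ℝ) ≤ (height a : ℝ) ^ ((1 - δ) / (1 + 2 * κ)) ∧ (T : ℝ) ^ (-κ) < dist b w P β T a) ≤
        C' * (B : ℝ) ^ (-(δ ^ 2 / 60)) := by
    intro κ δ
    by_cases h : 0 ≤ κ ∧ 0 < δ ∧ 2 * κ + δ < 1
    · obtain ⟨C', hC'⟩ := main4 d (s + 2) M κ δ h.1 h.2.1 h.2.2
      exact ⟨C', fun _ _ _ => hC'⟩
    · exact ⟨0, fun h1 h2 h3 => absurd ⟨h1, h2, h3⟩ h⟩
  choose C hC using h4
  refine ⟨C, ?_⟩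
  intro R _ b w hw κ δ B h1 h2 h3
  exact hC κ δ h1 h2 h3 b hw (fun p hp φ v hv => hM p hp v hv) B

end Pool.Agent.DPL
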