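import Mathlib

/-! The value of a binary form. -/

set_option autoImplicit false

namespace Pool.Agent.DPL

open Polynomial Finset

/-- The value of the binary form of degree `s` with the coefficients of `g`. -/
def bform {F : Type} [CommSemiring F] (s : ℕ) (g : F[X]) (x y : F) : F :=
  ∑ i ∈ range (s + 1), g.coeff i * x ^ i * y ^ (s - i)

theorem bform_mul {F : Type} [CommSemiring F] (s : ℕ) (g : F[X]) (hg : g.natDegree ≤ s) (u y : F) :
    bform s g (u * y) y = y ^ s * g.eval u := by
  rw [bform, eval_eq_sum_range' (Nat.lt_succ_of_le hg), Finset.mul_sum]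
  refine Finset.sum_congr rfl fun i hi => ?_
  have hi' : i ≤ s := Nat.lt_succ_iff.1 (Finset.mem_range.1 hi)
  have : y ^ s = y ^ i * y ^ (s - i) := by rw [← pow_add, Nat.add_sub_cancel' hi']
  rw [this, mul_pow]
  ring

theorem bform_zero {F : Type} [CommSemiring F] (s : ℕ) (g : F[X]) (x : F) :
    bform s g x 0 = g.coeff s * x ^ s := by
  rw [bform, Finset.sum_range_succ, Finset.sum_eq_zero, zero_add, Nat.sub_self, pow_zero, mul_one]
  intro i hi
  rw [zero_pow (by have := Finset.mem_range.1 hi; omega), mul_zero]

end Pool.Agent.DPL
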