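import Pool.Agent.Helper76.DIL.Main
import Pool.Agent.Helper29.QT.Geo
import Pool.Agent.Helper29.UT.OwnDefs
import Pool.Agent.DPL.Bounds

/-!
# Twists over multiquadratic extensions with bounds for the numbers of points
-/

set_option autoImplicit false

namespace Pool.Agent.DPL

open Finset MvPolynomial
open Pool.Agent.Helper76.DIL (Indep norms Roots incl delta above badNumber average restrict)

/-- The trace of Frobenius on the second cohomology group of the double plane `y ^ 2 = F (x)` over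
the field with `p` elements: the number of points minus `p ^ 2 + 1`. -/
noncomputable def planeTrace {S : Type} [CommRing S] (F : MvPolynomial (Fin 3) S) (p : ℕ)
    (φ : S →+* ZMod p) : ℝ :=
  Helper29.QT.coverPoints φ (![] : Fin 0 → MvPolynomial (Fin 3) S) F 1 - (p : ℝ) ^ 2 - 1

section

variable {R S : Type} [CommRing R] [CommRing S] {n c p : ℕ} [Fact p.Prime]

/-- The minus part of the twist by `δ`. -/
lemma cover_delta (ι : R →+* S) (φ : S →+* ZMod p) (h : Fin c → MvPolynomial (Fin n) R)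
    (f : MvPolynomial (Fin n) R) (hp : p ≠ 2) (δ : S) :
    Helper29.QT.coverPoints φ (fun i => map ι (h i)) (C δ * map ι f) 1 -
        Helper29.QT.points (φ.comp ι) h =
      (quadraticChar (ZMod p) (φ δ) : ℝ) *
        (Helper29.QT.coverPoints (φ.comp ι) h f 1 - Helper29.QT.points (φ.comp ι) h) := by
  have h1 : ((1 : ℤ) : ZMod p) ≠ 0 := by rw [Int.cast_one]; exact one_ne_zero
  have hX : Helper29.QT.XW φ (fun i => map ι (h i)) = Helper29.QT.XW (φ.comp ι) h := by
    unfold Helper29.QT.XW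
    simp only [eval₂_map]
  rw [Helper29.QT.coverPoints_eq φ _ _ hp h1, Helper29.QT.coverPoints_eq (φ.comp ι) h f hp h1,
    Helper29.QT.points_eq φ, Helper29.QT.points_eq (φ.comp ι), hX, legendreSym.at_one]
  have h2 : ∑ x ∈ Helper29.QT.XW (φ.comp ι) h,
      ((quadraticChar (ZMod p) (eval₂ φ x (C δ * map ι f)) : ℤ) : ℝ) =
      (quadraticChar (ZMod p) (φ δ) : ℝ) * ∑ x ∈ Helper29.QT.XW (φ.comp ι) h,
      ((quadraticChar (ZMod p) (eval₂ (φ.comp ι) x f) : ℤ) : ℝ) := by
    rw [Finset.mul_sum]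
    refine Finset.sum_congr rfl fun x _ => ?_
    rw [eval₂_mul, eval₂_C, eval₂_map, map_mul]
    push_cast
    ring
  rw [h2]
  push_cast
  ring

end

/-- Twists over multiquadratic extensions, the traces being numbers of points. -/
theorem close_points {m : ℕ} (a u v : Fin m → ℤ) (hI : Indep a (norms a u v))
    (d : ℕ) (D : ℝ) (hD : 0 ≤ D) (ε : ℝ) (hε : 0 < ε) :
    ∃ T₀ : ℕ,
    ∀ (R : Type) [CommRing R] (_b : Module.Basis (Fin d) ℤ R) (P : ∀ p : ℕ, Set (R →+* ZMod p))
      (n c : ℕ) (h : Fin c → MvPolynomial (Fin n) R) (f : MvPolynomial (Fin n) R) (M₁ : ℝ),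
      Helper29.UT.Bounds P h f D M₁ →
      ∀ T : ℕ, T₀ ≤ T →
        |average (above a P) (badNumber a u v) (fun p φ =>
            Helper29.QT.coverPoints φ (fun i => map (incl R a) (h i))
              (C (delta R a u v) * map (incl R a) f) 1 - (p : ℝ) ^ 2 - 1) T -
          average (above a P) (badNumber a u v)
            (restrict a fun p φ => Helper29.QT.points φ h - (p : ℝ) ^ 2 - 1) T| ≤
          d * D / 2 ^ m + ε := by
  obtain ⟨T₀, hT₀⟩ := Helper76.DIL.close a u v hI d D hD ε hε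
  refine ⟨T₀, ?_⟩
  intro R _ b P n c h f M₁ hB T hT
  refine hT₀ R b P (fun p φ => Helper29.QT.points φ h - (p : ℝ) ^ 2 - 1)
    (fun p φ => Helper29.QT.coverPoints φ h f 1 - (p : ℝ) ^ 2 - 1) _ (fun p hp hbad => ?_) T hT
  refine ⟨fun φ hφ => ?_, fun φ hφ => ?_⟩
  · have h1 := (hB p hp.out φ hφ).1
    have h2 : Helper29.QT.coverPoints φ h f 1 - (p : ℝ) ^ 2 - 1 -
        (Helper29.QT.points φ h - (p : ℝ) ^ 2 - 1) =
        Helper29.QT.coverPoints φ h f 1 - Helper29.QT.points φ h := by ring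
    rw [h2]
    exact h1
  · obtain ⟨hp2, _, _⟩ := Helper76.DIL.ne_zero_of_bad a u v hbad
    have h1 := cover_delta (incl R a) φ h f hp2 (delta R a u v)
    have h2 : Helper29.QT.coverPoints φ (fun i => map (incl R a) (h i))
        (C (delta R a u v) * map (incl R a) f) 1 - (p : ℝ) ^ 2 - 1 -
        (Helper29.QT.points (φ.comp (incl R a)) h - (p : ℝ) ^ 2 - 1) =
        Helper29.QT.coverPoints φ (fun i => map (incl R a) (h i))
        (C (delta R a u v) * map (incl R a) f) 1 -
        Helper29.QT.points (φ.comp (incl R a)) h := by ring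
    have h3 : Helper29.QT.coverPoints (φ.comp (incl R a)) h f 1 - (p : ℝ) ^ 2 - 1 -
        (Helper29.QT.points (φ.comp (incl R a)) h - (p : ℝ) ^ 2 - 1) =
        Helper29.QT.coverPoints (φ.comp (incl R a)) h f 1 -
        Helper29.QT.points (φ.comp (incl R a)) h := by ring
    simp only
    rw [h2, h3, h1]

/-- The number of points of the projective plane. -/
lemma points_plane {R : Type} [CommRing R] {p : ℕ} [hp : Fact p.Prime] (φ : R →+* ZMod p) :
    Helper29.QT.points φ (![] : Fin 0 → MvPolynomial (Fin 3) R) = (p : ℝ) ^ 2 + p + 1 := by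
  classical
  have hp1 : (1 : ℝ) < p := by exact_mod_cast hp.out.one_lt
  have h1 : (Nat.card {x : Fin 3 → ZMod p // x ≠ 0 ∧ ∀ i : Fin 0,
      eval₂ φ x ((![] : Fin 0 → MvPolynomial (Fin 3) R) i) = 0}) = p ^ 3 - 1 := by
    rw [Nat.card_eq_fintype_card, Fintype.card_subtype]
    have h2 : (univ : Finset (Fin 3 → ZMod p)).filter (fun x => x ≠ 0 ∧ ∀ i : Fin 0,
        eval₂ φ x ((![] : Fin 0 → MvPolynomial (Fin 3) R) i) = 0) = univ.erase 0 := by
      ext x
      simp
    rw [h2, Finset.card_erase_of_mem (mem_univ _), Finset.card_univ, Fintype.card_fun,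
      ZMod.card, Fintype.card_fin]
  unfold Helper29.QT.points
  rw [h1, Nat.cast_sub (Nat.one_le_pow _ _ hp.out.pos), div_eq_iff (by linarith)]
  push_cast
  ring

/-- The double planes `y ^ 2 = δ (e z ^ s + g (x₀, x₁))`. -/
theorem close_planes (s : ℕ) (hs : 2 ≤ s) : ∃ D : ℝ, 0 ≤ D ∧
    ∀ (m : ℕ) (a u v : Fin m → ℤ), Indep a (norms a u v) →
    ∀ (d : ℕ) (ε : ℝ), 0 < ε → ∃ T₀ : ℕ,
    ∀ (R : Type) [CommRing R] (_b : Module.Basis (Fin d) ℤ R) (e : R) (g : Polynomial R),
      g.natDegree ≤ s → ∀ T : ℕ, T₀ ≤ T →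
        |average (above a (goodPrimes s e g)) (badNumber a u v)
            (planeTrace (C (delta R a u v) * map (incl R a) (planeForm s e g))) T -
          average (above a (goodPrimes s e g)) (badNumber a u v) (fun p _ => (p : ℝ)) T| ≤
          d * D / 2 ^ m + ε := by
  obtain ⟨D, hD, H⟩ := bounds s hs
  refine ⟨D, hD, fun m a u v hI d ε hε => ?_⟩
  obtain ⟨T₀, hT₀⟩ := close_points a u v hI d D hD ε hε
  refine ⟨T₀, fun R _ b e g hg T hT => ?_⟩
  have h1 := hT₀ R b (goodPrimes s e g) 3 0 ![] (planeForm s e g) 1 (H R e g hg) T hT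
  have h2 : (fun i => map (incl R a) ((![] : Fin 0 → MvPolynomial (Fin 3) R) i)) =
      (![] : Fin 0 → MvPolynomial (Fin 3) (Roots R a)) := Subsingleton.elim _ _
  rw [h2] at h1
  have h3 : average (above a (goodPrimes s e g)) (badNumber a u v)
      (restrict a fun p φ => Helper29.QT.points φ (![] : Fin 0 → MvPolynomial (Fin 3) R) -
        (p : ℝ) ^ 2 - 1) T =
      average (above a (goodPrimes s e g)) (badNumber a u v) (fun p _ => (p : ℝ)) T := by
    unfold average
    congr 1
    refine Finset.sum_congr rfl fun p hp => ?_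
    have hF : Fact p.Prime := ⟨(Finset.mem_filter.1 hp).2.1⟩
    refine finsum_congr fun φ => finsum_congr fun _ => ?_
    unfold Pool.Agent.Helper76.DIL.restrict
    simp only [points_plane]
    congr 2
    ring
  rw [h3] at h1
  exact h1

end Pool.Agent.DPL
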