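import Mathlib

/-!
# Eigenvalues from the orbits of a permutation

For a permutation `σ` of a finite set `S` and a function `J` on `S` which is constant on the cycles
the sums of the `J x ^ (r / n x)` over the `x` with `σ ^ r x = x`, where `n x` is the length of the
cycle of `x`, are the power sums of `|S|` complex numbers.
-/

set_option autoImplicit false

namespace Pool.Agent.DPL

open Finset Function

section

variable {S : Type*} [Fintype S] (σ : Equiv.Perm S)

/-- The length of the cycle. -/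
lemma period_pos (x : S) : 0 < minimalPeriod σ x := by
  apply minimalPeriod_pos_of_mem_periodicPts
  obtain ⟨n, hn, h⟩ := isOfFinOrder_iff_pow_eq_one.1 (isOfFinOrder_of_finite σ)
  refine mk_mem_periodicPts hn ?_
  rw [IsPeriodicPt, IsFixedPt, ← Equiv.Perm.coe_pow, h]
  rfl

omit [Fintype S] in
lemma pow_eq_iff (x : S) (r : ℕ) : (σ ^ r) x = x ↔ minimalPeriod σ x ∣ r := by
  rw [← isPeriodicPt_iff_minimalPeriod_dvd, IsPeriodicPt, IsFixedPt, ← Equiv.Perm.coe_pow]

omit [Fintype S] in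
lemma period_pow (x : S) (j : ℕ) : minimalPeriod σ ((σ ^ j) x) = minimalPeriod σ x := by
  apply Nat.dvd_antisymm
  · rw [← pow_eq_iff, ← Equiv.Perm.mul_apply, ← pow_add, add_comm, pow_add,
      Equiv.Perm.mul_apply, (pow_eq_iff σ x _).2 dvd_rfl]
  · rw [← pow_eq_iff]
    have h := (pow_eq_iff σ ((σ ^ j) x) _).2 dvd_rfl
    rw [← Equiv.Perm.mul_apply, ← pow_add, add_comm, pow_add, Equiv.Perm.mul_apply] at h
    exact (σ ^ j).injective h

/-- The sum over the powers of a root of unity. -/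
lemma sum_pow_root {n : ℕ} {ζ : ℂ} (hζ : IsPrimitiveRoot ζ n) (r : ℕ) :
    ∑ j ∈ range n, (ζ ^ j) ^ r = if n ∣ r then (n : ℂ) else 0 := by
  have h1 : ∀ j, (ζ ^ j) ^ r = (ζ ^ r) ^ j := fun j => by rw [← pow_mul, ← pow_mul, mul_comm]
  simp_rw [h1]
  split_ifs with h
  · rw [(hζ.pow_eq_one_iff_dvd r).2 h]
    simp
  · have h2 : ζ ^ r - 1 ≠ 0 := sub_ne_zero.2 fun h3 => h ((hζ.pow_eq_one_iff_dvd r).1 h3)
    have h3 := geom_sum_mul (ζ ^ r) n
    rw [← pow_mul, mul_comm r n, pow_mul, hζ.pow_eq_one, one_pow, sub_self] at h3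
    exact (mul_eq_zero.1 h3).resolve_right h2

/-- The sum over a cycle. -/
lemma sum_cycle [DecidableEq S] {y : S} {c : Finset S} (hc : ∀ x, x ∈ c ↔ σ.SameCycle y x)
    (f : S → ℂ) : ∑ x ∈ c, f x = ∑ j ∈ range (minimalPeriod σ y), f ((σ ^ j) y) := by
  symm
  refine Finset.sum_bij (fun j _ => (σ ^ j) y) ?_ ?_ ?_ (fun _ _ => rfl)
  · intro j _
    rw [hc]
    exact ⟨j, by simp⟩
  · intro i hi j hj h
    have h1 := iterate_injOn_Iio_minimalPeriod (f := σ) (x := y)
    apply h1 (Set.mem_Iio.2 (mem_range.1 hi)) (Set.mem_Iio.2 (mem_range.1 hj))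
    simpa [Equiv.Perm.iterate_eq_pow] using h
  · intro x hx
    obtain ⟨i, hi⟩ := ((hc x).1 hx).exists_nat_pow_eq
    refine ⟨i % minimalPeriod σ y, mem_range.2 (Nat.mod_lt _ (period_pos σ y)), ?_⟩
    have h := iterate_mod_minimalPeriod_eq (f := σ) (x := y) (n := i)
    rw [Equiv.Perm.iterate_eq_pow, Equiv.Perm.iterate_eq_pow] at h
    rw [h, hi]

/-- **The eigenvalues.** -/
theorem orbits [DecidableEq S] (J : S → ℂ) (hJ : ∀ x, J (σ x) = J x) (q : ℝ) (hq : 0 ≤ q)
    (hn : ∀ x, ‖J x‖ = q ^ minimalPeriod σ x) :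
    ∃ α : S → ℂ, (∀ x, ‖α x‖ = q) ∧ ∀ r : ℕ,
      ∑ x ∈ univ.filter (fun x => (σ ^ r) x = x), J x ^ (r / minimalPeriod σ x) =
        ∑ x, α x ^ r := by
  classical
  have hJ' : ∀ (x : S) (j : ℕ), J ((σ ^ j) x) = J x := by
    intro x j
    induction j with
    | zero => simp
    | succ j ih => rw [pow_succ', Equiv.Perm.mul_apply, hJ, ih]
  have hroot : ∀ x : S, ∃ w : ℂ, w ^ minimalPeriod σ x = J x ∧ ‖w‖ = q := by
    intro x
    obtain ⟨w, hw⟩ := IsAlgClosed.exists_pow_nat_eq (J x) (period_pos σ x)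
    refine ⟨w, hw, ?_⟩
    have h1 := hn x
    rw [← hw, norm_pow] at h1
    exact (pow_left_inj₀ (norm_nonneg w) hq (period_pos σ x).ne').1 h1
  choose w hw1 hw2 using hroot
  let rep : S → S := fun x => (Quotient.mk (Equiv.Perm.SameCycle.setoid σ) x).out
  have hrep : ∀ x, σ.SameCycle (rep x) x := fun x =>
    Quotient.exact (Quotient.out_eq (Quotient.mk (Equiv.Perm.SameCycle.setoid σ) x))
  have hrep' : ∀ x y, σ.SameCycle x y → rep x = rep y := fun x y h => by
    have h1 : (Quotient.mk (Equiv.Perm.SameCycle.setoid σ) x) =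
        (Quotient.mk (Equiv.Perm.SameCycle.setoid σ) y) := Quotient.sound h
    change (Quotient.mk (Equiv.Perm.SameCycle.setoid σ) x).out = _
    rw [h1]
  have hidx : ∀ x : S, ∃ j < minimalPeriod σ (rep x), (σ ^ j) (rep x) = x := by
    intro x
    obtain ⟨i, hi⟩ := (hrep x).exists_nat_pow_eq
    refine ⟨i % minimalPeriod σ (rep x), Nat.mod_lt _ (period_pos σ _), ?_⟩
    have h := iterate_mod_minimalPeriod_eq (f := σ) (x := rep x) (n := i)
    rw [Equiv.Perm.iterate_eq_pow, Equiv.Perm.iterate_eq_pow] at h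
    rw [h, hi]
  choose idx hidx1 hidx2 using hidx
  let ζ : ℕ → ℂ := fun n => Complex.exp (2 * Real.pi * Complex.I / n)
  have hζ : ∀ n, 0 < n → IsPrimitiveRoot (ζ n) n := fun n hn =>
    Complex.isPrimitiveRoot_exp n hn.ne'
  let α : S → ℂ := fun x => w (rep x) * ζ (minimalPeriod σ (rep x)) ^ idx x
  refine ⟨α, fun x => ?_, fun r => ?_⟩
  · have h1 : ‖ζ (minimalPeriod σ (rep x))‖ = 1 :=
      (hζ _ (period_pos σ (rep x))).norm'_eq_one (period_pos σ (rep x)).ne'
    change ‖w (rep x) * ζ (minimalPeriod σ (rep x)) ^ idx x‖ = q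
    rw [norm_mul, norm_pow, h1, one_pow, mul_one, hw2]
  · rw [Finset.sum_filter]
    rw [← Finset.sum_fiberwise_of_maps_to (s := univ) (t := univ.image rep) (g := rep)
      (fun x _ => mem_image_of_mem rep (mem_univ x)) (fun x => if (σ ^ r) x = x then
        J x ^ (r / minimalPeriod σ x) else 0),
      ← Finset.sum_fiberwise_of_maps_to (s := univ) (t := univ.image rep) (g := rep)
      (fun x _ => mem_image_of_mem rep (mem_univ x)) (fun x => α x ^ r)]
    refine Finset.sum_congr rfl fun y hy => ?_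
    obtain ⟨x₀, _, rfl⟩ := mem_image.1 hy
    set y := rep x₀ with hy0
    have hyy : rep y = y := hrep' _ _ (hrep x₀)
    have hc : ∀ x, x ∈ univ.filter (fun x => rep x = y) ↔ σ.SameCycle y x := by
      intro x
      rw [mem_filter]
      constructor
      · rintro ⟨_, h⟩
        rw [← h]
        exact hrep x
      · intro h
        exact ⟨mem_univ _, by rw [← hrep' _ _ h, hyy]⟩
    rw [sum_cycle σ hc, sum_cycle σ hc]
    have hn0 := period_pos σ y
    have h1 : ∀ j ∈ range (minimalPeriod σ y), (if (σ ^ r) ((σ ^ j) y) = (σ ^ j) y then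
        J ((σ ^ j) y) ^ (r / minimalPeriod σ ((σ ^ j) y)) else 0) =
        if minimalPeriod σ y ∣ r then J y ^ (r / minimalPeriod σ y) else 0 := by
      intro j _
      simp only [pow_eq_iff, period_pow, hJ']
    have h2 : ∀ j ∈ range (minimalPeriod σ y), α ((σ ^ j) y) ^ r =
        w y ^ r * (ζ (minimalPeriod σ y) ^ j) ^ r := by
      intro j hj
      have h3 : rep ((σ ^ j) y) = y := by
        rw [← hrep' y ((σ ^ j) y) ⟨j, by simp⟩, hyy]
      have h4 : idx ((σ ^ j) y) = j := by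
        have h5 := hidx1 ((σ ^ j) y)
        have h6 := hidx2 ((σ ^ j) y)
        rw [h3] at h5 h6
        have h7 := iterate_injOn_Iio_minimalPeriod (f := σ) (x := y)
        apply h7 (Set.mem_Iio.2 h5) (Set.mem_Iio.2 (mem_range.1 hj))
        simpa [Equiv.Perm.iterate_eq_pow] using h6
      change (w (rep ((σ ^ j) y)) * ζ (minimalPeriod σ (rep ((σ ^ j) y))) ^ idx ((σ ^ j) y)) ^ r = _
      rw [h3, h4, mul_pow]
    rw [Finset.sum_congr rfl h1, Finset.sum_congr rfl h2, ← Finset.mul_sum,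
      sum_pow_root (hζ _ hn0), Finset.sum_const, card_range, nsmul_eq_mul]
    split_ifs with h
    · obtain ⟨k, hk⟩ := h
      rw [hk, Nat.mul_div_cancel_left _ hn0, pow_mul, hw1]
      ring
    · ring

end

end Pool.Agent.DPL
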