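import Pool.Agent.Helper29.LN.Defs

/-!
# The projective space of dimension three and the surfaces of degree `s`
-/

set_option autoImplicit false

namespace Pool.Agent.DPL

open MvPolynomial Pool.Agent.Helper29.LN

variable {R : Type} [CommRing R]

/-- The number of points of the projective space of dimension three. -/
theorem points_space (p : ℕ) (hp : p.Prime) (φ : R →+* ZMod p) :
    points φ (Set.range (![] : Fin 0 → MvPolynomial (Fin (0 + 4)) R)) =
      (p : ℝ) ^ 3 + (p : ℝ) ^ 2 + p + 1 := by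
  classical
  have : Fact p.Prime := ⟨hp⟩
  have h1 : Nat.card {x : Fin (0 + 4) → ZMod p // x ≠ 0 ∧
      ∀ F ∈ Set.range (![] : Fin 0 → MvPolynomial (Fin (0 + 4)) R), eval₂ φ x F = 0} =
      p ^ 4 - 1 := by
    have h2 : Nat.card {x : Fin (0 + 4) → ZMod p // x ≠ 0 ∧
      ∀ F ∈ Set.range (![] : Fin 0 → MvPolynomial (Fin (0 + 4)) R), eval₂ φ x F = 0} =
      Nat.card {x : Fin 4 → ZMod p // x ≠ 0} :=
      Nat.card_congr (Equiv.subtypeEquivRight fun x => by simp)
    rw [h2, Nat.card_eq_fintype_card, Fintype.card_subtype_compl]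
    simp [ZMod.card]
  have hp1 : ((p : ℝ) - 1) ≠ 0 := by
    have := hp.one_lt
    have h3 : (p : ℝ) ≠ 1 := by exact_mod_cast this.ne'
    exact sub_ne_zero.mpr h3
  rw [points, h1, Nat.cast_sub (Nat.one_le_pow _ _ hp.pos)]
  push_cast
  field_simp
  ring

theorem points_space_le (p : ℕ) (hp : p.Prime) (φ : R →+* ZMod p) :
    |points φ (Set.range (![] : Fin 0 → MvPolynomial (Fin (0 + 4)) R)) - (p : ℝ) ^ 3| ≤
      3 * (p : ℝ) ^ 2 := by
  rw [points_space p hp]
  have h1 : (1 : ℝ) ≤ p := by exact_mod_cast hp.one_le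
  rw [abs_of_nonneg (by nlinarith)]
  nlinarith

/-- The base locus is empty. -/
theorem points_empty (p : ℕ) (hp : p.Prime) (φ : R →+* ZMod p) :
    points φ (Set.range (![] : Fin 0 → MvPolynomial (Fin (0 + 4)) R) ∪
      Set.range (fun _ : Fin 1 => (1 : MvPolynomial (Fin (0 + 4)) R))) = 0 := by
  have : Fact p.Prime := ⟨hp⟩
  have h1 : IsEmpty {x : Fin (0 + 4) → ZMod p // x ≠ 0 ∧
      ∀ F ∈ Set.range (![] : Fin 0 → MvPolynomial (Fin (0 + 4)) R) ∪
        Set.range (fun _ : Fin 1 => (1 : MvPolynomial (Fin (0 + 4)) R)), eval₂ φ x F = 0} := by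
    refine ⟨fun x => ?_⟩
    have h2 := x.2.2 1 (Or.inr ⟨0, rfl⟩)
    rw [eval₂_one] at h2
    exact one_ne_zero h2
  rw [points, Nat.card_of_isEmpty]
  simp

/-- The trace is expected to be `p + 1 / p`. -/
theorem expect_space (p : ℕ) (hp : p.Prime) (φ : R →+* ZMod p) :
    expect φ (![] : Fin 0 → MvPolynomial (Fin (0 + 4)) R)
      (fun _ : Fin 1 => (1 : MvPolynomial (Fin (0 + 4)) R)) = 1 + 1 / (p : ℝ) ^ 2 := by
  have hp0 : (p : ℝ) ≠ 0 := by exact_mod_cast hp.ne_zero
  rw [expect, points_space p hp, points_empty p hp]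
  field_simp
  ring

/-- The coefficients of the surface of Fermat. -/
noncomputable def fermat (R : Type) [CommRing R] (s : ℕ) : Fin 1 × Mono (0 + 4) s → R := by
  classical
  exact fun j => if ∃ i : Fin (0 + 4), (j.2 : Fin (0 + 4) →₀ ℕ) = Finsupp.single i s then 1 else 0

theorem form_fermat {s : ℕ} (hs : 1 ≤ s) :
    form (fun _ : Fin 1 => (1 : MvPolynomial (Fin (0 + 4)) R)) (fermat R s) =
      ∑ i : Fin (0 + 4), X i ^ s := by
  classical
  have h1 : form (fun _ : Fin 1 => (1 : MvPolynomial (Fin (0 + 4)) R)) (fermat R s) =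
      ∑ m ∈ Mono (0 + 4) s, monomial m
        (if ∃ i : Fin (0 + 4), m = Finsupp.single i s then (1 : R) else 0) := by
    rw [form, Fintype.sum_prod_type]
    simp only [Finset.univ_unique, Finset.sum_singleton, mul_one]
    rw [← Finset.sum_coe_sort (Mono (0 + 4) s)]
    refine Finset.sum_congr rfl fun m _ => ?_
    simp only [fermat]
  have h2 : ∑ m ∈ Mono (0 + 4) s, monomial m
        (if ∃ i : Fin (0 + 4), m = Finsupp.single i s then (1 : R) else 0) =
      ∑ m ∈ Finset.univ.image (fun i : Fin (0 + 4) => Finsupp.single i s), monomial m (1 : R) := by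
    have h3 : Finset.univ.image (fun i : Fin (0 + 4) => Finsupp.single i s) ⊆ Mono (0 + 4) s := by
      intro m hm
      obtain ⟨i, -, rfl⟩ := Finset.mem_image.mp hm
      rw [Finset.mem_finsuppAntidiag]
      refine ⟨?_, fun _ _ => Finset.mem_univ _⟩
      rw [Finset.sum_eq_single i]
      · simp
      · intro j _ hj
        simp [hj.symm]
      · intro h; exact absurd (Finset.mem_univ _) h
    rw [← Finset.sum_subset h3 (f := fun m => monomial m
        (if ∃ i : Fin (0 + 4), m = Finsupp.single i s then (1 : R) else 0))]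
    · refine Finset.sum_congr rfl fun m hm => ?_
      obtain ⟨i, -, rfl⟩ := Finset.mem_image.mp hm
      rw [if_pos ⟨i, rfl⟩]
    · intro m _ hm
      rw [if_neg, map_zero]
      rintro ⟨i, rfl⟩
      exact hm (Finset.mem_image_of_mem _ (Finset.mem_univ _))
  rw [h1, h2, Finset.sum_image]
  · refine Finset.sum_congr rfl fun i _ => ?_
    rw [X_pow_eq_monomial]
  · intro i _ j _ hij
    exact (Finsupp.single_left_injective (by omega : s ≠ 0)) hij

/-- The surface of Fermat is smooth over the complex numbers. -/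
theorem smooth_fermat (ψ : R →+* ℂ) {s : ℕ} (hs : 1 ≤ s) :
    SmoothSection ψ (![] : Fin 0 → MvPolynomial (Fin (0 + 4)) R)
      (form (fun _ : Fin 1 => (1 : MvPolynomial (Fin (0 + 4)) R)) (fermat R s)) := by
  classical
  intro x hx _ _
  refine ⟨Fin.elim0, ?_⟩
  obtain ⟨i, hi⟩ := Function.ne_iff.mp hx
  have h1 : grad ψ (form (fun _ : Fin 1 => (1 : MvPolynomial (Fin (0 + 4)) R)) (fermat R s)) x i =
      (s : ℂ) * x i ^ (s - 1) := by
    rw [grad, form_fermat hs, map_sum, eval₂_sum]
    rw [Finset.sum_eq_single i]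
    · rw [pderiv_pow, pderiv_X_self]
      simp
    · intro j _ hj
      rw [pderiv_pow, pderiv_X_of_ne hj]
      simp
    · intro h; exact absurd (Finset.mem_univ _) h
  have h2 : grad ψ (form (fun _ : Fin 1 => (1 : MvPolynomial (Fin (0 + 4)) R)) (fermat R s)) x ≠ 0 := by
    intro h
    rw [h, Pi.zero_apply] at h1
    have h3 : (s : ℂ) ≠ 0 := by exact_mod_cast (by omega : s ≠ 0)
    exact (mul_ne_zero h3 (pow_ne_zero _ hi)) h1.symm
  have h4 : LinearIndependent ℂ (Fin.cons (grad ψ (form (fun _ : Fin 1 =>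
      (1 : MvPolynomial (Fin (0 + 4)) R)) (fermat R s)) x) (fun t : Fin 0 =>
        grad ψ ((![] : Fin 0 → MvPolynomial (Fin (0 + 4)) R) (Fin.elim0 t)) x) :
        Fin (0 + 1) → Fin (0 + 4) → ℂ) := by
    exact (linearIndependent_unique_iff (ι := Fin 1)).mpr h2
  exact h4

end Pool.Agent.DPL
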