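import Pool.Agent.DPL.Total
import Pool.Agent.Helper29.UT.OwnDefs
import Pool.Agent.Helper76.DIL.Defs

/-!
# Double planes: the number of points

The form `c z ^ s + g (x, y)`, with a binary form `g` of degree `s`, given by the coefficients of a
polynomial. The number of points of the double plane `w ^ 2 = δ (c z ^ s + g (x, y))` over a finite
field `K` is that of the plane plus the sum of the values of the quadratic character.
-/

set_option autoImplicit false

namespace Pool.Agent.DPL

open Finset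

section form

variable {R : Type} [CommRing R] (s : ℕ) (c : R) (g : Polynomial R)

/-- The form `c x_2 ^ s + g (x_0, x_1)`, where `g (x_0, x_1)` is the binary form of degree `s` with
the coefficients of `g`. -/
noncomputable def planeForm : MvPolynomial (Fin 3) R :=
  MvPolynomial.C c * MvPolynomial.X 2 ^ s + ∑ i ∈ range (s + 1),
    MvPolynomial.C (g.coeff i) * MvPolynomial.X 0 ^ i * MvPolynomial.X 1 ^ (s - i)

/-- The good primes: the homomorphisms `φ` to the field with `p` elements such that `p` does not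
divide `2 s`, `φ c` is not zero and the reduction of the binary form is squarefree. -/
def goodPrimes (p : ℕ) : Set (R →+* ZMod p) :=
  {φ | ¬ p ∣ 2 * s ∧ φ c ≠ 0 ∧ Squarefree (g.map φ) ∧ s ≤ (g.map φ).natDegree + 1}

variable {s c g}

lemma eval_planeForm {K : Type} [CommRing K] (θ : R →+* K) (x : Fin 3 → K) :
    MvPolynomial.eval₂ θ x (planeForm s c g) =
      bform s (g.map θ) (x 0) (x 1) + θ c * x 2 ^ s := by
  have h : MvPolynomial.eval₂ θ x (planeForm s c g) =
      MvPolynomial.eval₂Hom θ x (planeForm s c g) := rfl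
  rw [h, planeForm, map_add, map_mul, map_pow, map_sum, bform, add_comm]
  simp only [MvPolynomial.eval₂Hom_C, MvPolynomial.eval₂Hom_X', map_mul, map_pow,
    Polynomial.coeff_map]

end form

section count

variable {K : Type} [Field K] [Fintype K] [DecidableEq K]

/-- the number of points of a double cover with the origin removed -/
lemma card_double {n : ℕ} (hK : ringChar K ≠ 2) (f : (Fin n → K) → K) (hf : f 0 = 0) (δ : K) :
    (Nat.card {z : (Fin n → K) × K // z.1 ≠ 0 ∧ z.2 ^ 2 = δ * f z.1} : ℤ) =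
      ((Fintype.card K : ℤ) ^ n - 1) + quadraticChar K δ * ∑ x : Fin n → K,
        quadraticChar K (f x) := by
  classical
  have h1 : Nat.card {z : (Fin n → K) × K // z.1 ≠ 0 ∧ z.2 ^ 2 = δ * f z.1} =
      ∑ x ∈ (univ : Finset (Fin n → K)).erase 0,
        (univ.filter fun y : K => y ^ 2 = δ * f x).card := by
    rw [Nat.card_eq_fintype_card, Fintype.card_subtype, Finset.card_filter,
      Fintype.sum_prod_type]
    rw [← Finset.add_sum_erase _ _ (mem_univ (0 : Fin n → K))]
    have h2 : ∑ y : K, (if ((0 : Fin n → K), y).1 ≠ 0 ∧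
        ((0 : Fin n → K), y).2 ^ 2 = δ * f ((0 : Fin n → K), y).1 then 1 else 0) = 0 :=
      Finset.sum_eq_zero fun y _ => if_neg fun h => h.1 rfl
    rw [h2, zero_add]
    refine Finset.sum_congr rfl fun x hx => ?_
    rw [Finset.card_filter]
    refine Finset.sum_congr rfl fun y _ => ?_
    have hx0 : x ≠ 0 := (Finset.mem_erase.1 hx).1
    by_cases h : y ^ 2 = δ * f x
    · rw [if_pos h, if_pos ⟨hx0, h⟩]
    · rw [if_neg h, if_neg fun h' => h h'.2]
  have h2 : ∀ w : K, ((univ.filter fun y : K => y ^ 2 = w).card : ℤ) = quadraticChar K w + 1 := by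
    intro w
    rw [← quadraticChar_card_sqrts hK w]
    congr 2
    ext y
    simp
  rw [h1, Nat.cast_sum, Finset.sum_congr rfl fun x _ => h2 _, Finset.sum_add_distrib,
    Finset.sum_const, Finset.card_erase_of_mem (mem_univ _), Finset.card_univ, Fintype.card_fun,
    Fintype.card_fin]
  have h3 : ∑ x : Fin n → K, quadraticChar K (f x) =
      ∑ x ∈ (univ : Finset (Fin n → K)).erase 0, quadraticChar K (f x) := by
    rw [← Finset.add_sum_erase _ _ (mem_univ (0 : Fin n → K)), hf, MulChar.map_zero, zero_add]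
  rw [h3, Finset.mul_sum]
  have h4 : 1 ≤ Fintype.card K ^ n := Nat.one_le_pow _ _ Fintype.card_pos
  have h5 : ∑ x ∈ (univ : Finset (Fin n → K)).erase 0, quadraticChar K (δ * f x) =
      ∑ x ∈ (univ : Finset (Fin n → K)).erase 0, quadraticChar K δ * quadraticChar K (f x) :=
    Finset.sum_congr rfl fun x _ => map_mul _ _ _
  rw [nsmul_eq_mul, Nat.cast_sub h4, mul_one, add_comm, h5]
  push_cast
  rfl

/-- the number of points of the plane -/
lemma card_ne_zero (n : ℕ) : (Nat.card {x : Fin n → K // x ≠ 0} : ℤ) =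
    (Fintype.card K : ℤ) ^ n - 1 := by
  classical
  rw [Nat.card_eq_fintype_card, Fintype.card_subtype_compl, Fintype.card_fun, Fintype.card_fin,
    Fintype.card_subtype_eq, Nat.cast_sub (Nat.one_le_pow _ _ Fintype.card_pos)]
  push_cast
  rfl

/-- the number of points of the double plane -/
theorem card_plane {R : Type} [CommRing R] (hK : ringChar K ≠ 2) (θ : R →+* K) {s : ℕ}
    (hs : 1 ≤ s) (c : R) (g : Polynomial R) (δ : K) :
    (Nat.card {z : (Fin 3 → K) × K // z.1 ≠ 0 ∧
      z.2 ^ 2 = δ * MvPolynomial.eval₂ θ z.1 (planeForm s c g)} : ℤ) =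
      ((Fintype.card K : ℤ) ^ 3 - 1) + quadraticChar K δ * ∑ x : K × K, ∑ z : K,
        quadraticChar K (bform s (g.map θ) x.1 x.2 + θ c * z ^ s) := by
  have h0 : MvPolynomial.eval₂ θ (0 : Fin 3 → K) (planeForm s c g) = 0 := by
    rw [eval_planeForm, Pi.zero_apply, Pi.zero_apply, Pi.zero_apply, bform_zero,
      zero_pow (by omega), mul_zero, mul_zero, add_zero]
  rw [card_double hK (fun x => MvPolynomial.eval₂ θ x (planeForm s c g)) h0]
  congr 2
  have e : ∀ f : (Fin 3 → K) → ℤ, ∑ x : Fin 3 → K, f x =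
      ∑ x : K × K, ∑ z : K, f ![x.1, x.2, z] := by
    intro f
    rw [← Fintype.sum_prod_type']
    symm
    refine Fintype.sum_bijective (fun v : (K × K) × K => ![v.1.1, v.1.2, v.2]) ?_ _ _ fun _ => rfl
    constructor
    · rintro ⟨⟨a, b⟩, c⟩ ⟨⟨a', b'⟩, c'⟩ h
      have h0 := congrFun h 0
      have h1 := congrFun h 1
      have h2 := congrFun h 2
      simp only [Matrix.cons_val_zero, Matrix.cons_val_one, Matrix.cons_val] at h0 h1 h2
      rw [h0, h1, h2]
    · intro x
      refine ⟨⟨⟨x 0, x 1⟩, x 2⟩, ?_⟩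
      funext i
      fin_cases i <;> rfl
  rw [e]
  refine Finset.sum_congr rfl fun x _ => Finset.sum_congr rfl fun z _ => ?_
  rw [eval_planeForm]
  rfl

/-- the bound, for every finite field -/
theorem card_plane_bound {R : Type} [CommRing R] (hK : ringChar K ≠ 2) (θ : R →+* K) {s : ℕ}
    (hs : 1 ≤ s) (c : R) (g : Polynomial R) (δ : K) {M : ℝ}
    (hM : |((∑ x : K × K, ∑ z : K,
      quadraticChar K (bform s (g.map θ) x.1 x.2 + θ c * z ^ s) : ℤ) : ℝ)| ≤
        M * (Fintype.card K * (Fintype.card K - 1))) :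
    |(Nat.card {z : (Fin 3 → K) × K // z.1 ≠ 0 ∧
      z.2 ^ 2 = δ * MvPolynomial.eval₂ θ z.1 (planeForm s c g)} : ℝ) / (Fintype.card K - 1) -
        (Nat.card {x : Fin 3 → K // x ≠ 0} : ℝ) / (Fintype.card K - 1)| ≤
      M * Fintype.card K := by
  set T : ℤ := ∑ x : K × K, ∑ z : K,
    quadraticChar K (bform s (g.map θ) x.1 x.2 + θ c * z ^ s) with hT
  have h1 := card_plane hK θ hs c g δ
  have h2 := card_ne_zero (K := K) 3
  rw [← h2] at h1
  have h3 : (Nat.card {z : (Fin 3 → K) × K // z.1 ≠ 0 ∧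
      z.2 ^ 2 = δ * MvPolynomial.eval₂ θ z.1 (planeForm s c g)} : ℝ) =
      (Nat.card {x : Fin 3 → K // x ≠ 0} : ℝ) + (quadraticChar K δ : ℝ) * T := by
    exact_mod_cast h1
  have hq : (1 : ℝ) < Fintype.card K := by exact_mod_cast Fintype.one_lt_card
  have hq' : (0 : ℝ) < (Fintype.card K : ℝ) - 1 := by linarith
  rw [h3, ← sub_div, add_sub_cancel_left, abs_div, abs_of_pos hq', div_le_iff₀ hq', abs_mul]
  have h4 : |((quadraticChar K δ : ℤ) : ℝ)| ≤ 1 := by
    have h5 : |(quadraticChar K δ : ℤ)| ≤ 1 := by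
      by_cases hw : δ = 0
      · rw [hw, MulChar.map_zero]; norm_num
      · rcases quadraticChar_dichotomy hw with h | h <;> rw [h] <;> norm_num
    exact_mod_cast h5
  calc |((quadraticChar K δ : ℤ) : ℝ)| * |(T : ℝ)| ≤ 1 * |(T : ℝ)| :=
        mul_le_mul_of_nonneg_right h4 (abs_nonneg _)
    _ = |(T : ℝ)| := one_mul _
    _ ≤ M * (Fintype.card K * (Fintype.card K - 1)) := hM
    _ = M * Fintype.card K * (Fintype.card K - 1) := by ring

end count

end Pool.Agent.DPL
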