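import Pool.Agent.DPL.Form

/-! The number of solutions of a Thue equation over a finite field. -/

set_option autoImplicit false

namespace Pool.Agent.DPL

open Polynomial Finset

section

variable {F : Type} [Field F] [Fintype F] [DecidableEq F]

/-- In the group of units of a finite field: the fibres of `y ↦ y ^ s`. -/
theorem card_units_pow (s d h : ℕ) (hd : d = Nat.gcd (Fintype.card F - 1) s)
    (hq : Fintype.card F = d * h + 1) (w : Fˣ) :
    (univ.filter fun y : Fˣ => y ^ s = w).card = if w ^ h = 1 then d else 0 := by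
  have hcard : Nat.card Fˣ = d * h := by
    rw [Nat.card_eq_fintype_card, Fintype.card_units, hq, Nat.add_sub_cancel]
  have hq1 : Fintype.card F - 1 = d * h := by rw [hq, Nat.add_sub_cancel]
  have hpos : 0 < d * h := by
    rw [← hcard]
    exact Nat.card_pos
  have hd0 : 0 < d := by
    rcases Nat.eq_zero_or_pos d with h0 | h0
    · rw [h0, zero_mul] at hpos
      exact absurd hpos (lt_irrefl 0)
    · exact h0
  have hgcd : Nat.gcd (d * h) s = d := by rw [← hq1, ← hd]
  have hds : d ∣ s := by rw [← hgcd]; exact Nat.gcd_dvd_right _ _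
  obtain ⟨t, ht⟩ := hds
  have hker : Nat.card (powMonoidHom s : Fˣ →* Fˣ).ker = d := by
    rw [IsCyclic.card_powMonoidHom_ker, hcard, hgcd]
  have hrange : Nat.card (powMonoidHom s : Fˣ →* Fˣ).range = h := by
    rw [IsCyclic.card_powMonoidHom_range, hcard, hgcd, Nat.mul_div_cancel_left _ hd0]
  have hker' : Nat.card (powMonoidHom h : Fˣ →* Fˣ).ker = h := by
    rw [IsCyclic.card_powMonoidHom_ker, hcard, Nat.gcd_mul_left_left]
  have hle : (powMonoidHom s : Fˣ →* Fˣ).range ≤ (powMonoidHom h : Fˣ →* Fˣ).ker := by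
    rintro _ ⟨y, rfl⟩
    rw [MonoidHom.mem_ker, powMonoidHom_apply, powMonoidHom_apply, ht, ← pow_mul]
    have : d * t * h = (d * h) * t := by ring
    rw [this, pow_mul, ← hcard, pow_card_eq_one', one_pow]
  have heq : (powMonoidHom s : Fˣ →* Fˣ).range = (powMonoidHom h : Fˣ →* Fˣ).ker := by
    apply Subgroup.eq_of_le_of_card_ge hle
    rw [hker', hrange]
  split_ifs with hw
  · have hmem : w ∈ Set.range (powMonoidHom s : Fˣ →* Fˣ) := by
      have h1 : w ∈ (powMonoidHom h : Fˣ →* Fˣ).ker := by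
        rw [MonoidHom.mem_ker, powMonoidHom_apply]
        exact hw
      rw [← heq] at h1
      exact h1
    have h2 := MonoidHom.card_fiber_eq_of_mem_range (powMonoidHom s : Fˣ →* Fˣ) hmem
      (⟨1, map_one _⟩ : (1 : Fˣ) ∈ Set.range (powMonoidHom s : Fˣ →* Fˣ))
    simp only [powMonoidHom_apply] at h2
    rw [h2]
    rw [← hker, Nat.card_eq_fintype_card, Fintype.card_subtype]
    refine congrArg Finset.card (Finset.filter_congr fun y _ => ?_)
    rw [MonoidHom.mem_ker, powMonoidHom_apply]
  · rw [Finset.card_eq_zero, Finset.filter_eq_empty_iff]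
    intro y _ hy
    apply hw
    have h1 : w ∈ (powMonoidHom s : Fˣ →* Fˣ).range := ⟨y, hy⟩
    rw [heq, MonoidHom.mem_ker, powMonoidHom_apply] at h1
    exact h1

/-- The fibres of `y ↦ y ^ s` on the nonzero elements of a finite field. -/
theorem card_pow (s d h : ℕ) (hd : d = Nat.gcd (Fintype.card F - 1) s)
    (hq : Fintype.card F = d * h + 1) (w : F) (hw : w ≠ 0) :
    (univ.filter fun y : F => y ≠ 0 ∧ y ^ s = w).card = if w ^ h = 1 then d else 0 := by
  have h1 := card_units_pow s d h hd hq (Units.mk0 w hw)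
  have h2 : (Units.mk0 w hw) ^ h = 1 ↔ w ^ h = 1 := by
    rw [Units.ext_iff, Units.val_pow_eq_pow_val, Units.val_mk0, Units.val_one]
  rw [if_congr h2 rfl rfl] at h1
  rw [← h1]
  symm
  refine Finset.card_bij (fun y _ => (y : F)) ?_ ?_ ?_
  · intro y hy
    rw [Finset.mem_filter] at hy ⊢
    refine ⟨mem_univ _, y.ne_zero, ?_⟩
    rw [← Units.val_pow_eq_pow_val, hy.2, Units.val_mk0]
  · intro y _ y' _ h
    exact Units.ext h
  · intro y hy
    rw [Finset.mem_filter] at hy
    refine ⟨Units.mk0 y hy.2.1, ?_, rfl⟩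
    rw [Finset.mem_filter]
    refine ⟨mem_univ _, ?_⟩
    rw [Units.ext_iff, Units.val_pow_eq_pow_val, Units.val_mk0, Units.val_mk0]
    exact hy.2.2

/-- The solutions with `y = 0`. -/
theorem card_zero_fibre (s : ℕ) (hs : 1 ≤ s) (g : F[X]) (v : F) (hv : v ≠ 0) :
    (univ.filter fun x : F => bform s g x 0 = v).card ≤ s := by
  by_cases hg : g.coeff s = 0
  · rw [Finset.filter_eq_empty_iff.2, Finset.card_empty]
    · exact Nat.zero_le _
    · intro x _ hx
      rw [bform_zero, hg, zero_mul] at hx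
      exact hv hx.symm
  · have h1 : (univ.filter fun x : F => bform s g x 0 = v) ⊆
        (nthRoots s (v / g.coeff s)).toFinset := by
      intro x hx
      rw [Finset.mem_filter, bform_zero] at hx
      rw [Multiset.mem_toFinset, mem_nthRoots (by omega), ← hx.2, mul_div_cancel_left₀ _ hg]
    exact (Finset.card_le_card h1).trans ((Multiset.toFinset_card_le _).trans (card_nthRoots _ _))

/-- The solutions with `y ≠ 0`. -/
theorem card_main (s d h : ℕ) (hd : d = Nat.gcd (Fintype.card F - 1) s)
    (hq : Fintype.card F = d * h + 1) (g : F[X]) (hg : g.natDegree ≤ s) (v : F) (hv : v ≠ 0) :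
    (univ.filter fun x : F × F => x.2 ≠ 0 ∧ bform s g x.1 x.2 = v).card =
      (univ.filter fun u : F => g.eval u ≠ 0 ∧ g.eval u ^ h = v ^ h).card * d := by
  have h1 : (univ.filter fun x : F × F => x.2 ≠ 0 ∧ bform s g x.1 x.2 = v).card =
      (univ.filter fun x : F × F => x.2 ≠ 0 ∧ x.2 ^ s * g.eval x.1 = v).card := by
    refine Finset.card_bij (fun x _ => (x.1 / x.2, x.2)) ?_ ?_ ?_
    · intro x hx
      rw [Finset.mem_filter] at hx ⊢
      refine ⟨mem_univ _, hx.2.1, ?_⟩
      rw [← bform_mul s g hg, div_mul_cancel₀ _ hx.2.1]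
      exact hx.2.2
    · intro x hx x' hx' h1
      rw [Finset.mem_filter] at hx hx'
      have h2 : x.2 = x'.2 := (Prod.ext_iff.1 h1).2
      have h3 : x.1 / x.2 = x'.1 / x'.2 := (Prod.ext_iff.1 h1).1
      rw [h2] at h3
      exact Prod.ext ((div_left_inj' hx'.2.1).1 h3) h2
    · intro x hx
      rw [Finset.mem_filter] at hx
      refine ⟨(x.1 * x.2, x.2), ?_, ?_⟩
      · rw [Finset.mem_filter]
        refine ⟨mem_univ _, hx.2.1, ?_⟩
        rw [bform_mul s g hg]
        exact hx.2.2
      · exact Prod.ext (mul_div_cancel_right₀ _ hx.2.1) rfl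
  have h2 : (univ.filter fun x : F × F => x.2 ≠ 0 ∧ x.2 ^ s * g.eval x.1 = v).card =
      ∑ u : F, (univ.filter fun y : F => y ≠ 0 ∧ y ^ s * g.eval u = v).card := by
    rw [Finset.card_filter, Fintype.sum_prod_type]
    refine Finset.sum_congr rfl fun u _ => ?_
    rw [Finset.card_filter]
  rw [h1, h2, Finset.card_filter, Finset.sum_mul]
  refine Finset.sum_congr rfl fun u _ => ?_
  by_cases hu : g.eval u = 0
  · rw [if_neg (fun h => h.1 hu), zero_mul, Finset.card_eq_zero, Finset.filter_eq_empty_iff]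
    intro y _ hy
    rw [hu, mul_zero] at hy
    exact hv hy.2.symm
  · have h3 : (univ.filter fun y : F => y ≠ 0 ∧ y ^ s * g.eval u = v) =
        (univ.filter fun y : F => y ≠ 0 ∧ y ^ s = v / g.eval u) := by
      refine Finset.filter_congr fun y _ => ?_
      rw [eq_div_iff hu]
    rw [h3, card_pow s d h hd hq _ (div_ne_zero hv hu)]
    have h4 : (v / g.eval u) ^ h = 1 ↔ g.eval u ^ h = v ^ h := by
      rw [div_pow, div_eq_one_iff_eq (pow_ne_zero _ hu), eq_comm]
    by_cases h5 : g.eval u ^ h = v ^ h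
    · rw [if_pos (h4.2 h5), if_pos ⟨hu, h5⟩, one_mul]
    · rw [if_neg (fun h => h5 (h4.1 h)), if_neg (fun h => h5 h.2), zero_mul]

/-- The classes of the values of `g`: from upper bounds to a lower bound. -/
theorem card_class (d h m : ℕ) (hd : 0 < d) (hq : Fintype.card F = d * h + 1) (g : F[X])
    (hg0 : g ≠ 0) (hg : g.natDegree ≤ m) (K : ℝ)
    (hK : ∀ a : F, ((univ.filter fun x : F => g.eval x ≠ 0 ∧ g.eval x ^ h = a).card : ℝ) ≤
      (Fintype.card F : ℝ) / d + K) (v : F) (hv : v ≠ 0) :
    (Fintype.card F : ℝ) / d - m - (d - 1) * K ≤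
      ((univ.filter fun x : F => g.eval x ≠ 0 ∧ g.eval x ^ h = v ^ h).card : ℝ) := by
  classical
  set A : Finset F := (nthRoots d (1 : F)).toFinset with hA
  have hAcard : A.card ≤ d := (Multiset.toFinset_card_le _).trans (card_nthRoots _ _)
  have hpow : ∀ x : F, x ≠ 0 → x ^ h ∈ A := by
    intro x hx
    rw [hA, Multiset.mem_toFinset, mem_nthRoots hd, ← pow_mul, mul_comm h d]
    have : Fintype.card F - 1 = d * h := by rw [hq, Nat.add_sub_cancel]
    rw [← this]
    exact FiniteField.pow_card_sub_one_eq_one x hx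
  have hvA : v ^ h ∈ A := hpow v hv
  set S : Finset F := univ.filter fun x : F => g.eval x ≠ 0 with hS
  have hSc : (Fintype.card F : ℝ) ≤ S.card + m := by
    have h1 : S.card + (univ.filter fun x : F => ¬ g.eval x ≠ 0).card = Fintype.card F := by
      rw [hS, Finset.card_filter_add_card_filter_not, Finset.card_univ]
    have h2 : (univ.filter fun x : F => ¬ g.eval x ≠ 0).card ≤ m := by
      refine le_trans (Finset.card_le_card (t := g.roots.toFinset) ?_)
        ((Multiset.toFinset_card_le g.roots).trans ((card_roots' g).trans hg))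
      intro x hx
      rw [Finset.mem_filter, not_not] at hx
      rw [Multiset.mem_toFinset, mem_roots hg0]
      exact hx.2
    have h3 : Fintype.card F ≤ S.card + m := by omega
    exact_mod_cast h3
  have hsum : S.card = ∑ a ∈ A, (univ.filter fun x : F => g.eval x ≠ 0 ∧ g.eval x ^ h = a).card := by
    rw [Finset.card_eq_sum_card_fiberwise (f := fun x => g.eval x ^ h) (t := A)]
    · refine Finset.sum_congr rfl fun a _ => ?_
      rw [hS, Finset.filter_filter]
    · intro x hx
      rw [hS, Finset.coe_filter] at hx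
      exact hpow _ hx.2
  rw [← Finset.add_sum_erase _ _ hvA] at hsum
  have hrest : ((∑ a ∈ A.erase (v ^ h),
      (univ.filter fun x : F => g.eval x ≠ 0 ∧ g.eval x ^ h = a).card : ℕ) : ℝ) ≤
      (d - 1) * ((Fintype.card F : ℝ) / d + K) := by
    push_cast
    refine (Finset.sum_le_card_nsmul _ _ _ fun a _ => hK a).trans ?_
    rw [nsmul_eq_mul, Finset.card_erase_of_mem hvA]
    have hK0 : 0 ≤ (Fintype.card F : ℝ) / d + K := by
      refine le_trans ?_ (hK 0)
      exact Nat.cast_nonneg _
    refine mul_le_mul_of_nonneg_right ?_ hK0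
    have h1 : 1 ≤ A.card := Finset.card_pos.2 ⟨_, hvA⟩
    rw [Nat.cast_sub h1, Nat.cast_one]
    have h2 : (A.card : ℝ) ≤ d := by exact_mod_cast hAcard
    linarith
  have hd' : (0 : ℝ) < d := by exact_mod_cast hd
  have hsumR : (S.card : ℝ) =
      ((univ.filter fun x : F => g.eval x ≠ 0 ∧ g.eval x ^ h = v ^ h).card : ℝ) +
      ((∑ a ∈ A.erase (v ^ h),
      (univ.filter fun x : F => g.eval x ≠ 0 ∧ g.eval x ^ h = a).card : ℕ) : ℝ) := by
    exact_mod_cast hsum
  have h6 : (d - 1) * ((Fintype.card F : ℝ) / d + K) =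
      (Fintype.card F : ℝ) - (Fintype.card F : ℝ) / d + (d - 1) * K := by
    field_simp
  rw [h6] at hrest
  linarith

/-- The number of solutions of `g (x, y) = v`, from Stepanov's bound. -/
theorem thue_of (s : ℕ) (hs : 2 ≤ s) (g : F[X]) (hg0 : g ≠ 0) (hg : g.natDegree ≤ s) (C : ℝ)
    (hC0 : 0 ≤ C)
    (hC : ∀ d h : ℕ, 0 < d → d ≤ s → Fintype.card F = d * h + 1 → ∀ a : F,
      ((univ.filter fun x : F => g.eval x ≠ 0 ∧ g.eval x ^ h = a).card : ℝ) ≤
        (Fintype.card F : ℝ) / d + C * Real.sqrt (Fintype.card F)) (v : F) (hv : v ≠ 0) :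
    |((univ.filter fun x : F × F => bform s g x.1 x.2 = v).card : ℝ) - Fintype.card F| ≤
      (s + s * s + s * s * C) * Real.sqrt (Fintype.card F) := by
  have hq1 : 1 < Fintype.card F := Fintype.one_lt_card
  set d := Nat.gcd (Fintype.card F - 1) s with hd
  have hd0 : 0 < d := Nat.gcd_pos_of_pos_left _ (by omega)
  have hds : d ≤ s := Nat.le_of_dvd (by omega) (Nat.gcd_dvd_right _ _)
  obtain ⟨h, hh⟩ : d ∣ Fintype.card F - 1 := Nat.gcd_dvd_left _ _
  have hq : Fintype.card F = d * h + 1 := by omega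
  have hsplit : (univ.filter fun x : F × F => bform s g x.1 x.2 = v).card =
      (univ.filter fun x : F => bform s g x 0 = v).card +
      (univ.filter fun x : F × F => x.2 ≠ 0 ∧ bform s g x.1 x.2 = v).card := by
    rw [← Finset.card_filter_add_card_filter_not (fun x : F × F => x.2 = 0),
      Finset.filter_filter, Finset.filter_filter]
    congr 1
    · refine Finset.card_bij (fun x _ => x.1) ?_ ?_ ?_
      · intro x hx
        rw [Finset.mem_filter] at hx ⊢
        refine ⟨mem_univ _, ?_⟩
        have h2 := hx.2.1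
        rw [hx.2.2] at h2
        exact h2
      · intro x hx x' hx' h1
        rw [Finset.mem_filter] at hx hx'
        exact Prod.ext h1 (hx.2.2.trans hx'.2.2.symm)
      · intro x hx
        rw [Finset.mem_filter] at hx
        exact ⟨(x, 0), by rw [Finset.mem_filter]; exact ⟨mem_univ _, hx.2, rfl⟩, rfl⟩
    · refine congrArg Finset.card (Finset.filter_congr fun x _ => ?_)
      rw [and_comm]
  have hmain := card_main s d h hd hq g hg v hv
  have hzero := card_zero_fibre s (by omega) g v hv
  have hup := hC d h hd0 hds hq (v ^ h)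
  have hlow := card_class d h s hd0 hq g hg0 hg (C * Real.sqrt (Fintype.card F))
    (hC d h hd0 hds hq) v hv
  set q : ℝ := (Fintype.card F : ℝ) with hqdef
  have hq1R : (1 : ℝ) ≤ q := by
    rw [hqdef]
    exact_mod_cast hq1.le
  have hr : (1 : ℝ) ≤ Real.sqrt q := by
    rw [Real.one_le_sqrt]
    exact hq1R
  set r : ℝ := Real.sqrt q with hrdef
  set n : ℝ := ((univ.filter fun x : F => g.eval x ≠ 0 ∧ g.eval x ^ h = v ^ h).card : ℝ) with hn
  set z : ℝ := ((univ.filter fun x : F => bform s g x 0 = v).card : ℝ) with hz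
  have hzs : z ≤ s := by
    rw [hz]
    exact_mod_cast hzero
  have hz0 : 0 ≤ z := by
    rw [hz]
    exact Nat.cast_nonneg _
  have htot : ((univ.filter fun x : F × F => bform s g x.1 x.2 = v).card : ℝ) = z + n * d := by
    rw [hsplit, hmain]
    push_cast
    rfl
  have hdR : (0 : ℝ) < d := by exact_mod_cast hd0
  have hd1R : (1 : ℝ) ≤ d := by exact_mod_cast hd0
  have hdsR : (d : ℝ) ≤ s := by exact_mod_cast hds
  have hsR : (2 : ℝ) ≤ s := by exact_mod_cast hs
  have hqd : q / d * d = q := div_mul_cancel₀ _ hdR.ne'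
  have hup' : n * d ≤ q + C * r * d := by
    have h1 := mul_le_mul_of_nonneg_right hup hdR.le
    rw [add_mul, hqd] at h1
    exact h1
  have hlow' : q - s * d - (d - 1) * (C * r) * d ≤ n * d := by
    have h1 := mul_le_mul_of_nonneg_right hlow hdR.le
    rw [sub_mul, sub_mul, hqd] at h1
    exact h1
  have hCr : 0 ≤ C * r := mul_nonneg hC0 (by linarith)
  rw [htot, abs_le]
  constructor
  · have h1 : (s : ℝ) * d ≤ s * s * r := by
      have h2 : (s : ℝ) * d ≤ s * s := mul_le_mul_of_nonneg_left hdsR (by linarith)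
      have h3 : (s : ℝ) * s ≤ s * s * r := by
        have : (0 : ℝ) ≤ s * s := by positivity
        nlinarith
      linarith
    have h4 : (d - 1) * (C * r) * d ≤ s * s * C * r := by
      have h5 : ((d : ℝ) - 1) * d ≤ s * s := by nlinarith
      calc ((d : ℝ) - 1) * (C * r) * d = ((d : ℝ) - 1) * d * (C * r) := by ring
        _ ≤ s * s * (C * r) := mul_le_mul_of_nonneg_right h5 hCr
        _ = s * s * C * r := by ring
    have h6 : 0 ≤ (s : ℝ) * r := by positivity
    nlinarith
  · have h1 : C * r * d ≤ s * s * C * r := by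
      have h5 : (d : ℝ) ≤ s * s := by nlinarith
      calc C * r * d = d * (C * r) := by ring
        _ ≤ s * s * (C * r) := mul_le_mul_of_nonneg_right h5 hCr
        _ = s * s * C * r := by ring
    have h2 : (s : ℝ) ≤ s * r := by nlinarith
    have h3 : 0 ≤ (s : ℝ) * s * r := by positivity
    nlinarith

end

end Pool.Agent.DPL
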