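import Pool.Agent.DPL.Form

/-! The sum of the quadratic character over the values of a ternary form. -/

set_option autoImplicit false

namespace Pool.Agent.DPL

open Polynomial Finset

section

variable {F : Type} [Field F] [Fintype F] [DecidableEq F]

theorem card_zero_le (s : ℕ) (g : F[X]) (hg0 : g ≠ 0) (hg : g.natDegree ≤ s) :
    (univ.filter fun x : F × F => bform s g x.1 x.2 = 0).card ≤
      Fintype.card F + (Fintype.card F - 1) * s := by
  have h1 : (univ.filter fun x : F × F => bform s g x.1 x.2 = 0).card =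
      ∑ y : F, (univ.filter fun x : F => bform s g x y = 0).card := by
    rw [Finset.card_filter, Fintype.sum_prod_type_right]
    refine Finset.sum_congr rfl fun y _ => ?_
    rw [Finset.card_filter]
  rw [h1, ← Finset.add_sum_erase _ _ (mem_univ (0 : F))]
  refine Nat.add_le_add (card_le_univ _) ?_
  have h2 : ∀ y ∈ (univ : Finset F).erase 0,
      (univ.filter fun x : F => bform s g x y = 0).card ≤ s := by
    intro y hy
    have hy0 : y ≠ 0 := (Finset.mem_erase.1 hy).1
    refine le_trans ?_ ((Multiset.toFinset_card_le g.roots).trans ((card_roots' g).trans hg))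
    refine Finset.card_le_card_of_injOn (fun x => x / y) ?_ ?_
    · intro x hx
      rw [Finset.mem_coe, Finset.mem_filter] at hx
      rw [Finset.mem_coe, Multiset.mem_toFinset, mem_roots hg0, IsRoot.def]
      have h3 := bform_mul s g hg (x / y) y
      rw [div_mul_cancel₀ _ hy0, hx.2] at h3
      exact (mul_eq_zero.1 h3.symm).resolve_left (pow_ne_zero _ hy0)
    · intro x _ x' _ h
      exact (div_left_inj' hy0).1 h
  refine (Finset.sum_le_card_nsmul _ _ _ h2).trans ?_
  rw [Finset.card_erase_of_mem (mem_univ _), Finset.card_univ, smul_eq_mul]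

theorem sum_shift (hF : ringChar F ≠ 2) (w : F) : ∑ v : F, quadraticChar F (v + w) = 0 := by
  rw [← quadraticChar_sum_zero hF]
  exact Fintype.sum_equiv (Equiv.addRight w) _ _ fun v => rfl

theorem total_of (s : ℕ) (hs : 2 ≤ s) (hF : ringChar F ≠ 2) (c : F) (g : F[X])
    (hg0 : g ≠ 0) (hg : g.natDegree ≤ s) (C₁ C₂ : ℝ) (hC₂ : 0 ≤ C₂)
    (hK : ∀ v : F, v ≠ 0 → |((∑ z : F, quadraticChar F (v + c * z ^ s) : ℤ) : ℝ)| ≤
      C₁ * Real.sqrt (Fintype.card F))
    (hN : ∀ v : F, v ≠ 0 →
      |((univ.filter fun x : F × F => bform s g x.1 x.2 = v).card : ℝ) - Fintype.card F| ≤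
          C₂ * Real.sqrt (Fintype.card F)) :
    |((∑ x : F × F, ∑ z : F, quadraticChar F (bform s g x.1 x.2 + c * z ^ s) : ℤ) : ℝ)| ≤
      (s + 1 + C₂ * C₁) * (Fintype.card F * (Fintype.card F - 1)) := by
  set q : ℝ := (Fintype.card F : ℝ) with hq
  have hq1 : 1 ≤ Fintype.card F := Fintype.card_pos
  have hq1R : (1 : ℝ) ≤ q := by rw [hq]; exact_mod_cast hq1
  set K : F → ℤ := fun v => ∑ z : F, quadraticChar F (v + c * z ^ s) with hKdef
  set N : F → ℕ := fun v => (univ.filter fun x : F × F => bform s g x.1 x.2 = v).card with hNdef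
  have hT : (∑ x : F × F, ∑ z : F, quadraticChar F (bform s g x.1 x.2 + c * z ^ s) : ℤ) =
      ∑ v : F, (N v : ℤ) * K v := by
    have h1 : (∑ x : F × F, K (bform s g x.1 x.2)) =
        ∑ v : F, ∑ x ∈ univ.filter (fun x : F × F => bform s g x.1 x.2 = v),
          K (bform s g x.1 x.2) :=
      (Finset.sum_fiberwise univ (fun x : F × F => bform s g x.1 x.2) _).symm
    have h2 : (∑ x : F × F, ∑ z : F, quadraticChar F (bform s g x.1 x.2 + c * z ^ s) : ℤ) =
      ∑ x : F × F, K (bform s g x.1 x.2) := rfl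
    rw [h2, h1]
    refine Finset.sum_congr rfl fun v _ => ?_
    rw [Finset.sum_congr rfl (g := fun _ => K v), Finset.sum_const, nsmul_eq_mul]
    intro x hx
    rw [(Finset.mem_filter.1 hx).2]
  have hK0 : ∑ v : F, K v = 0 := by
    rw [hKdef]
    simp only
    rw [Finset.sum_comm]
    exact Finset.sum_eq_zero fun z _ => sum_shift hF _
  have hK00 : |(K 0 : ℝ)| ≤ q - 1 := by
    have h1 : K 0 = ∑ z ∈ (univ : Finset F).erase 0, quadraticChar F (0 + c * z ^ s) := by
      rw [hKdef]
      simp only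
      rw [← Finset.add_sum_erase _ _ (mem_univ (0 : F)), zero_pow (by omega), mul_zero, add_zero,
        MulChar.map_zero, zero_add]
    have h2 : ∀ w : F, |(quadraticChar F w : ℤ)| ≤ 1 := by
      intro w
      by_cases hw : w = 0
      · rw [hw, MulChar.map_zero]; norm_num
      · rcases quadraticChar_dichotomy hw with h | h <;> rw [h] <;> norm_num
    have h3 : |K 0| ≤ ((Fintype.card F - 1 : ℕ) : ℤ) := by
      rw [h1]
      refine (Finset.abs_sum_le_sum_abs _ _).trans ?_
      refine (Finset.sum_le_card_nsmul _ _ 1 fun z _ => h2 _).trans ?_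
      rw [Finset.card_erase_of_mem (mem_univ _), Finset.card_univ]
      simp
    have h4 : |(K 0 : ℝ)| ≤ ((Fintype.card F - 1 : ℕ) : ℝ) := by exact_mod_cast h3
    rw [Nat.cast_sub hq1, Nat.cast_one] at h4
    exact h4
  have hN0 : |(N 0 : ℝ) - q| ≤ (s + 1) * q := by
    have h1 : (N 0 : ℝ) ≤ q + (q - 1) * s := by
      have := card_zero_le s g hg0 hg
      have h2 : ((N 0 : ℕ) : ℝ) ≤ ((Fintype.card F + (Fintype.card F - 1) * s : ℕ) : ℝ) := by
        exact_mod_cast this
      rw [Nat.cast_add, Nat.cast_mul, Nat.cast_sub hq1, Nat.cast_one] at h2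
      exact h2
    have hs0 : (0 : ℝ) ≤ s := Nat.cast_nonneg _
    have hn0 : (0 : ℝ) ≤ N 0 := Nat.cast_nonneg _
    rw [abs_le]
    constructor
    · nlinarith
    · nlinarith
  have hmain : ((∑ v : F, (N v : ℤ) * K v : ℤ) : ℝ) = ((N 0 : ℝ) - q) * K 0 +
      ∑ v ∈ (univ : Finset F).erase 0, ((N v : ℝ) - q) * K v := by
    rw [Finset.add_sum_erase _ (fun v => ((N v : ℝ) - q) * K v) (mem_univ (0 : F))]
    have h1 : ∑ v : F, ((N v : ℝ) - q) * K v = ∑ v : F, (N v : ℝ) * K v - q * ∑ v : F, (K v : ℝ) := by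
      rw [Finset.mul_sum, ← Finset.sum_sub_distrib]
      exact Finset.sum_congr rfl fun v _ => by ring
    have h2 : ∑ v : F, (K v : ℝ) = 0 := by exact_mod_cast hK0
    rw [h1, h2, mul_zero, sub_zero]
    push_cast
    rfl
  rw [hT, hmain]
  refine (abs_add_le _ _).trans ?_
  have e1 : |((N 0 : ℝ) - q) * K 0| ≤ (s + 1) * q * (q - 1) := by
    rw [abs_mul]
    exact mul_le_mul hN0 hK00 (abs_nonneg _) (by positivity)
  have e2 : |∑ v ∈ (univ : Finset F).erase 0, ((N v : ℝ) - q) * K v| ≤
      (q - 1) * (C₂ * C₁ * q) := by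
    refine (Finset.abs_sum_le_sum_abs _ _).trans ?_
    have h3 : ∀ v ∈ (univ : Finset F).erase 0, |((N v : ℝ) - q) * K v| ≤ C₂ * C₁ * q := by
      intro v hv
      have hv0 : v ≠ 0 := (Finset.mem_erase.1 hv).1
      rw [abs_mul]
      have hsq : Real.sqrt q * Real.sqrt q = q := Real.mul_self_sqrt (by linarith)
      calc |(N v : ℝ) - q| * |(K v : ℝ)| ≤ (C₂ * Real.sqrt q) * (C₁ * Real.sqrt q) :=
            mul_le_mul (hN v hv0) (hK v hv0) (abs_nonneg _)
              (mul_nonneg hC₂ (Real.sqrt_nonneg _))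
        _ = C₂ * C₁ * (Real.sqrt q * Real.sqrt q) := by ring
        _ = C₂ * C₁ * q := by rw [hsq]
    refine (Finset.sum_le_card_nsmul _ _ _ h3).trans ?_
    rw [Finset.card_erase_of_mem (mem_univ _), Finset.card_univ, nsmul_eq_mul, Nat.cast_sub hq1,
      Nat.cast_one]
  have : (s + 1 + C₂ * C₁) * (q * (q - 1)) = (s + 1) * q * (q - 1) + (q - 1) * (C₂ * C₁ * q) := by
    ring
  rw [this]
  exact add_le_add e1 e2

end

end Pool.Agent.DPL
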